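import Pool.Agent.H553.SB.Abs

set_option autoImplicit false

/-!
# Lower bounds for functions correlated with a family of r-functions: abstract form
-/

namespace Pool.Agent.H553.CT

open Finset
open Pool.Agent.H397R2.SD (E E_congr E_mono E_smul E_nonneg E_sum E_sub E_add E_zero abs_E_le
  E_const)
open Pool.Agent.NH43.AD
open Pool.Agent.NH43.AD.PairAux (mem_cells count_up hh hh_nonneg sum_cells)
open Pool.Agent.NH44.AD (rhQ etQ S_PFQ)
open Pool.Agent.NH99.AL (all_PFQ)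
open Pool.Agent.H553.SB

/-- the upper components of the test function -/
theorem comp_upper (d : ℕ) (hd : 2 ≤ d) : ∃ C : ℕ, ∀ (n m : ℕ) (η : ℕ → ℝ) (ρ κ : ℝ) (Ω : Type)
    [Fintype Ω] [Nonempty Ω] (T : Fin d → ℕ → Ω → Ω) (X : Fin d → ℕ → Ω → ℝ) (f : Ce d → Ω → ℝ),
    Hyp n T X f → 0 ≤ κ → (∀ q : Ce d, (∀ i, q i ≤ n) → PF m η ρ X f q ≤ κ) → 0 ≤ ρ →
    ∀ p : Ce d, (∀ i, p i ≤ n) → ∀ σ : ℕ, 1 ≤ σ → ∑ i, p i = n + σ →
      E (fun x => |comp m η ρ X f p x|) ≤ ((C : ℝ) + 1) ^ 2 * ((σ : ℝ) + 1) ^ (2 * C) * ρ ^ 2 := by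
  classical
  obtain ⟨C₁, hC₁⟩ := all_LOC d hd
  refine ⟨C₁, ?_⟩
  intro n m η ρ κ Ω _ _ T X f hHyp hκ hPF hρ p hp σ hσ1 hσ
  have hsgn : ∀ (x : Ω) i v, Xx X x i v = 1 ∨ Xx X x i v = -1 :=
    fun x i v => hHyp.sgn i v x
  have hylt : ∀ (x : Ω) r, |yx ρ f x r| ≤ ρ := by
    intro x r
    rw [yx, abs_mul, abs_of_nonneg hρ]
    calc ρ * |f r x| ≤ ρ * 1 := mul_le_mul_of_nonneg_left (hHyp.le r x) hρ
      _ = ρ := mul_one _
  have hy0 : ∀ (x : Ω) (r : Ce d), ∑ i, r i ≠ n → yx ρ f x r = 0 := by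
    intro x r hr
    rw [yx, hHyp.zero r x hr, mul_zero]
  have hgd := all_GD d n m η Ω T X f ρ κ hd hHyp hκ hPF
  have hpt : ∀ x, |comp m η ρ X f p x| ≤ (((C₁ : ℝ) + 1) ^ 2 * ((σ : ℝ) + 1) ^ (2 * C₁) * ρ ^ 2) *
      (if Good m η (Xx X x) (yx ρ f x) p then DD (yx ρ f x) p else 0) := by
    intro x
    unfold comp
    split_ifs with hG
    · have hDp : 0 < DD (yx ρ f x) p := (hG p fun i => le_rfl).1
      have hs1 : (1 : ℝ) ≤ ((σ : ℝ) + 1) ^ C₁ := one_le_pow₀ (by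
        have : (0 : ℝ) ≤ σ := Nat.cast_nonneg σ
        linarith)
      have hC0 : (0 : ℝ) ≤ C₁ := Nat.cast_nonneg _
      have hBB : ((σ : ℝ) + 1) ^ (2 * C₁) = (((σ : ℝ) + 1) ^ C₁) ^ 2 := by
        rw [mul_comm, pow_mul]
      have hy : yx ρ f x p = 0 := hy0 x p (by omega)
      rcases le_or_gt ((C₁ : ℝ) * ((σ : ℝ) + 1) ^ C₁ * ρ) 1 with hle | hgt
      · have h1 := (hC₁ n m η (Xx X x) (yx ρ f x) ρ (hsgn x) hρ (hylt x) (hy0 x) p hG).2.2
          σ hσ hle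
        rw [hy, mul_zero, sub_zero] at h1
        refine h1.trans ?_
        rw [mul_comm (DD (yx ρ f x) p)]
        refine mul_le_mul_of_nonneg_right ?_ hDp.le
        refine mul_le_mul_of_nonneg_right ?_ (sq_nonneg _)
        rw [hBB]
        set t : ℝ := ((σ : ℝ) + 1) ^ C₁
        have e1 : (C₁ : ℝ) * t ≤ ((C₁ : ℝ) + 1) * t := by nlinarith
        have e2 : 1 ≤ ((C₁ : ℝ) + 1) * t := by nlinarith
        calc (C₁ : ℝ) * t ≤ ((C₁ : ℝ) + 1) * t := e1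
          _ ≤ (((C₁ : ℝ) + 1) * t) ^ 2 := by nlinarith
          _ = _ := by ring
      · have h1 := (all_POS d (Xx X x) (yx ρ f x) p hd (hsgn x) hDp
          (hG p fun i => le_rfl).2.1).2
        refine h1.trans ?_
        have h2 : 1 ≤ ((C₁ : ℝ) + 1) ^ 2 * ((σ : ℝ) + 1) ^ (2 * C₁) * ρ ^ 2 := by
          rw [hBB]
          set t : ℝ := ((σ : ℝ) + 1) ^ C₁
          have e1 : 1 ≤ ((C₁ : ℝ) + 1) * t * ρ := by nlinarith
          calc (1 : ℝ) ≤ (((C₁ : ℝ) + 1) * t * ρ) ^ 2 := by nlinarith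
            _ = _ := by ring
        calc DD (yx ρ f x) p = 1 * DD (yx ρ f x) p := (one_mul _).symm
          _ ≤ _ := mul_le_mul_of_nonneg_right h2 hDp.le
    · rw [abs_zero, mul_zero]
  refine (E_mono hpt).trans ?_
  rw [E_smul]
  have h1 := hgd.2 p hp
  calc _ ≤ (((C₁ : ℝ) + 1) ^ 2 * ((σ : ℝ) + 1) ^ (2 * C₁) * ρ ^ 2) * 1 :=
        mul_le_mul_of_nonneg_left h1 (by positivity)
    _ = _ := mul_one _

/-- the lower components vanish, the middle ones are the births -/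
theorem comp_low (d : ℕ) (hd : 2 ≤ d) (n m : ℕ) (η : ℕ → ℝ) (ρ : ℝ) (Ω : Type)
    [Fintype Ω] (T : Fin d → ℕ → Ω → Ω) (X : Fin d → ℕ → Ω → ℝ) (f : Ce d → Ω → ℝ)
    (hHyp : Hyp n T X f) (hρ : 0 ≤ ρ) (hρ1 : ρ ≤ cz d) (hη : ∀ k, 0 ≤ η k) (p : Ce d) (x : Ω) :
    (∑ i, p i < n → comp m η ρ X f p x = 0) ∧
    (∑ i, p i = n → comp m η ρ X f p x = ρ * f p x) ∧
    (comp m η ρ X f p x ≠ 0 → ∃ r : Ce d, (∀ i, r i ≤ p i) ∧ f r x ≠ 0) := by
  classical
  obtain ⟨C₁, hC₁⟩ := all_LOC d hd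
  have hsgn : ∀ i v, Xx X x i v = 1 ∨ Xx X x i v = -1 := fun i v => hHyp.sgn i v x
  have hylt : ∀ r, |yx ρ f x r| ≤ ρ := by
    intro r
    rw [yx, abs_mul, abs_of_nonneg hρ]
    calc ρ * |f r x| ≤ ρ * 1 := mul_le_mul_of_nonneg_left (hHyp.le r x) hρ
      _ = ρ := mul_one _
  have hy0 : ∀ (r : Ce d), ∑ i, r i ≠ n → yx ρ f x r = 0 := by
    intro r hr
    rw [yx, hHyp.zero r x hr, mul_zero]
  refine ⟨fun hs => ?_, fun hs => ?_, fun hne => ?_⟩
  · unfold comp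
    split_ifs with hG
    · exact (hC₁ n m η (Xx X x) (yx ρ f x) ρ hsgn hρ hylt hy0 p hG).1 hs
    · rfl
  · have hG : Good m η (Xx X x) (yx ρ f x) p :=
      good_first n m η (Xx X x) (yx ρ f x) ρ hd hsgn hη hρ1 hylt hy0 p hs
    unfold comp
    rw [if_pos hG, (hC₁ n m η (Xx X x) (yx ρ f x) ρ hsgn hρ hylt hy0 p hG).2.1 hs]
    rfl
  · by_contra hcon
    push Not at hcon
    apply hne
    unfold comp
    split_ifs
    · refine (all_LAW d (Xx X x) (yx ρ f x) hd hsgn).2.2.2.2.2.2.2.2.1 p fun r hr => ?_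
      rw [yx, hcon r hr, mul_zero]
    · rfl

/-- **The abstract lower bound.** -/
theorem abs_ct (k : ℕ) (hk : 2 ≤ k) (κ κ' : ℝ) (hκ : 0 < κ) (hκ' : 0 < κ') :
    ∃ c : ℝ, 0 < c ∧ ∃ A : ℕ, ∀ (n : ℕ) (Ω : Type) [Fintype Ω] [Nonempty Ω]
    (T : Fin (k + 1) → ℕ → Ω → Ω) (X : Fin (k + 1) → ℕ → Ω → ℝ) (f : Ce (k + 1) → Ω → ℝ),
    Hyp n T X f → ∀ (F : Ω → ℝ) (M : ℝ), (∀ x, |F x| ≤ M) →
    (∀ (p : Ce (k + 1)) (g : Ω → ℝ), (∀ i, p i ≤ n) → n ≤ ∑ i, p i →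
      (∀ i x, g (T i (p i) x) = - g x) →
      (∀ x, g x ≠ 0 → ∃ r : Ce (k + 1), (∀ i, r i ≤ p i) ∧ f r x ≠ 0) →
      |E (fun x => F x * g x)| ≤ (1 / 2 : ℝ) ^ (∑ i, p i - n) * E (fun x => |g x|)) →
    (∀ p : Ce (k + 1), ∑ i, p i = n → κ * E (fun x => |f p x|) ≤ E (fun x => F x * f p x)) →
    (κ' * ((n : ℝ) + 1) ^ k ≤ ∑ p ∈ cells (fun _ => n), E (fun x => |f p x|)) →
    c * ((n : ℝ) + 1) ^ (((k : ℝ) + 1) / 2) ≤ ((mm n : ℝ) + 1) ^ A * M := by
  classical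
  obtain ⟨C₁, hC₁⟩ := comp_upper (k + 1) (by omega)
  obtain ⟨A, hA1, hA⟩ := all_PFQ (k + 1) (2 * (k + 1)) (by omega)
  set B : ℕ := 2 * C₁ with hB
  set A' : ℝ := ((C₁ : ℝ) + 1) ^ 2 with hA'
  set Z : ℝ := ∑' σ, hh B σ with hZ
  have hZ0 : 0 ≤ Z := tsum_nonneg fun σ => hh_nonneg B σ
  have hA'0 : 0 ≤ A' := by positivity
  have hcz := cz_pos (k + 1)
  have hcz1 := cz_le_one (k + 1)
  set a₀ : ℝ := min (cz (k + 1)) (κ * κ' / (2 * (A' * Z + 1))) with ha₀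
  have ha₀0 : 0 < a₀ := by
    rw [ha₀]
    apply lt_min hcz
    positivity
  have ha₀1 : a₀ ≤ cz (k + 1) := min_le_left _ _
  have ha₀2 : a₀ * (A' * Z) ≤ κ * κ' / 2 := by
    have h1 : a₀ ≤ κ * κ' / (2 * (A' * Z + 1)) := min_le_right _ _
    calc a₀ * (A' * Z) ≤ κ * κ' / (2 * (A' * Z + 1)) * (A' * Z) :=
          mul_le_mul_of_nonneg_right h1 (by positivity)
      _ ≤ κ * κ' / (2 * (A' * Z + 1)) * (A' * Z + 1) := by
          apply mul_le_mul_of_nonneg_left _ (by positivity)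
          linarith
      _ = κ * κ' / 2 := by
          field_simp
  refine ⟨a₀ * κ * κ' / (2 * (2 + 2 ^ (k + 1))), by positivity, A, ?_⟩
  intro n Ω _ _ T X f hH F M hM hup hmid hcnt
  have hmm : (0 : ℝ) < ((mm n : ℝ) + 1) ^ A := by positivity
  have hmm1 : (1 : ℝ) ≤ ((mm n : ℝ) + 1) ^ A := by
    apply one_le_pow₀
    have : (0 : ℝ) ≤ (mm n : ℝ) := Nat.cast_nonneg _
    linarith
  set dl : ℝ := a₀ / ((mm n : ℝ) + 1) ^ A with hdl
  have hdl0 : 0 < dl := by positivity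
  have hdl1 : dl * ((mm n : ℝ) + 1) ^ A ≤ 1 := by
    rw [hdl, div_mul_cancel₀ _ hmm.ne']
    exact ha₀1.trans hcz1
  have hPF := hA n dl hdl0 hdl1 Ω T X f hH
  have hn1 : (1 : ℝ) ≤ (n : ℝ) + 1 := by
    have : (0 : ℝ) ≤ n := Nat.cast_nonneg n
    linarith
  have hL1 := all_L1 (k + 1) n (mm n) (etQ (k + 1) A n dl) Ω T X f (rhQ (k + 1) n dl)
    (1 / ((n : ℝ) + 1) ^ (2 * (k + 1))) (by omega) hH (by positivity) hPF
  have hL1' : E (fun x => |Psi n (mm n) (etQ (k + 1) A n dl) (rhQ (k + 1) n dl) X f x|) ≤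
      1 + 2 ^ (k + 1) := by
    refine hL1.trans (le_of_eq ?_)
    field_simp
  set P : ℝ := ((n : ℝ) + 1) ^ (((k : ℝ) - 1) / 2) with hP
  have hP0 : 0 < P := by positivity
  have hP1 : 1 ≤ P := by
    apply Real.one_le_rpow hn1
    have : (2 : ℝ) ≤ k := by exact_mod_cast hk
    linarith
  have hrh : rhQ (k + 1) n dl = dl / P := by
    unfold rhQ
    have : (((k + 1 : ℕ) : ℝ) - 2) / 2 = ((k : ℝ) - 1) / 2 := by push_cast; ring
    rw [this, Real.rpow_neg (by linarith), ← hP]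
    field_simp
  have hdla : dl ≤ a₀ := by
    rw [hdl, div_le_iff₀ hmm]
    calc a₀ = a₀ * 1 := (mul_one _).symm
      _ ≤ _ := mul_le_mul_of_nonneg_left hmm1 ha₀0.le
  set ρ : ℝ := rhQ (k + 1) n dl with hρd
  have hρ0 : 0 < ρ := by rw [hrh]; positivity
  have hρa : ρ ≤ a₀ := by
    rw [hrh, div_le_iff₀ hP0]
    calc dl ≤ a₀ := hdla
      _ = a₀ * 1 := (mul_one _).symm
      _ ≤ _ := mul_le_mul_of_nonneg_left hP1 ha₀0.le
  have hρ1 : ρ ≤ cz (k + 1) := hρa.trans ha₀1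
  set η : ℕ → ℝ := etQ (k + 1) A n dl with hηd
  have hη : ∀ j, 0 ≤ η j := by
    intro j
    rw [hηd]
    unfold etQ
    positivity
  have hM0 : 0 ≤ M := (abs_nonneg _).trans (hM (Classical.arbitrary Ω))
  -- the upper bound
  have hupper : E (fun x => F x * (Psi n (mm n) η ρ X f x - 1)) ≤ M * (2 + 2 ^ (k + 1)) := by
    calc E (fun x => F x * (Psi n (mm n) η ρ X f x - 1))
        ≤ E (fun x => M * (|Psi n (mm n) η ρ X f x| + 1)) := by
          refine E_mono fun x => ?_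
          refine (le_abs_self _).trans ?_
          rw [abs_mul]
          refine mul_le_mul (hM x) ?_ (abs_nonneg _) hM0
          refine (abs_sub _ _).trans ?_
          rw [abs_one]
      _ = M * (E (fun x => |Psi n (mm n) η ρ X f x|) + 1) := by
          rw [E_smul, E_add, E_const]
      _ ≤ M * (2 + 2 ^ (k + 1)) := by
          apply mul_le_mul_of_nonneg_left _ hM0
          linarith
  -- the expansion
  have hsplit : E (fun x => F x * (Psi n (mm n) η ρ X f x - 1)) =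
      ∑ p ∈ cells (fun _ : Fin (k + 1) => n),
        E (fun x => F x * comp (mm n) η ρ X f p x) := by
    rw [← E_sum]
    refine E_congr fun x => ?_
    rw [Psi_eq, add_sub_cancel_left, Finset.mul_sum]
  have hlow := fun (p : Ce (k + 1)) (x : Ω) =>
    comp_low (k + 1) (by omega) n (mm n) η ρ Ω T X f hH hρ0.le hρ1 hη p x
  have hterm : ∀ p ∈ cells (fun _ : Fin (k + 1) => n),
      ρ * κ * E (fun x => |f p x|) -
        A' * ρ ^ 2 * (if n < ∑ i, p i then hh B (∑ i, p i - n) else 0) ≤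
      E (fun x => F x * comp (mm n) η ρ X f p x) := by
    intro p hp
    rw [mem_cells] at hp
    rcases lt_trichotomy (∑ i, p i) n with h | h | h
    · rw [if_neg (by omega)]
      have h1 : E (fun x => F x * comp (mm n) η ρ X f p x) = 0 := by
        rw [← E_zero (Ω := Ω)]
        refine E_congr fun x => ?_
        rw [(hlow p x).1 h, mul_zero]
      have h2 : E (fun x => |f p x|) = 0 := by
        rw [← E_zero (Ω := Ω)]
        refine E_congr fun x => ?_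
        rw [hH.zero p x h.ne, abs_zero]
      rw [h1, h2]
      simp
    · rw [if_neg (by omega)]
      have h1 : E (fun x => F x * comp (mm n) η ρ X f p x) = ρ * E (fun x => F x * f p x) := by
        rw [← E_smul]
        refine E_congr fun x => ?_
        rw [(hlow p x).2.1 h]
        ring
      rw [h1]
      have h2 := mul_le_mul_of_nonneg_left (hmid p h) hρ0.le
      calc ρ * κ * E (fun x => |f p x|) - A' * ρ ^ 2 * 0 = ρ * (κ * E (fun x => |f p x|)) := by ring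
        _ ≤ _ := h2
    · rw [if_pos h]
      obtain ⟨σ, hσ⟩ : ∃ σ, ∑ i, p i = n + σ := ⟨∑ i, p i - n, by omega⟩
      have h2 : E (fun x => |f p x|) = 0 := by
        rw [← E_zero (Ω := Ω)]
        refine E_congr fun x => ?_
        rw [hH.zero p x h.ne', abs_zero]
      have h3 := hup p (comp (mm n) η ρ X f p) hp h.le
        (fun i x => comp_odd n (mm n) η ρ T X f (by omega) hH p hp i x)
        (fun x hx => (hlow p x).2.2 hx)
      have h4 := hC₁ n (mm n) η ρ (1 / ((n : ℝ) + 1) ^ (2 * (k + 1))) Ω T X f hH (by positivity)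
        hPF hρ0.le p hp σ (by omega) hσ
      have h5 : |E (fun x => F x * comp (mm n) η ρ X f p x)| ≤
          A' * ρ ^ 2 * hh B (∑ i, p i - n) := by
        refine h3.trans ?_
        rw [hσ, Nat.add_sub_cancel_left]
        unfold hh
        calc (1 / 2 : ℝ) ^ σ * E (fun x => |comp (mm n) η ρ X f p x|)
            ≤ (1 / 2 : ℝ) ^ σ * (A' * ((σ : ℝ) + 1) ^ B * ρ ^ 2) :=
              mul_le_mul_of_nonneg_left h4 (by positivity)
          _ = _ := by ring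
      rw [h2, mul_zero, zero_sub]
      exact (abs_le.1 h5).1
  have hsum := Finset.sum_le_sum hterm
  rw [← hsplit, Finset.sum_sub_distrib, ← Finset.mul_sum, ← Finset.mul_sum] at hsum
  have e2 := sum_cells B k n
  rw [← hZ] at e2
  have hN : (0 : ℝ) < ((n : ℝ) + 1) ^ k := by positivity
  have e3 : ρ * κ * (κ' * ((n : ℝ) + 1) ^ k) ≤
      ρ * κ * ∑ p ∈ cells (fun _ : Fin (k + 1) => n), E (fun x => |f p x|) :=
    mul_le_mul_of_nonneg_left hcnt (by positivity)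
  have e4 : A' * ρ ^ 2 * ∑ p ∈ cells (fun _ : Fin (k + 1) => n),
      (if n < ∑ i, p i then hh B (∑ i, p i - n) else 0) ≤
      ρ * (κ * κ' / 2) * ((n : ℝ) + 1) ^ k := by
    calc A' * ρ ^ 2 * ∑ p ∈ cells (fun _ : Fin (k + 1) => n),
          (if n < ∑ i, p i then hh B (∑ i, p i - n) else 0)
        ≤ A' * ρ ^ 2 * (((n : ℝ) + 1) ^ k * Z) := mul_le_mul_of_nonneg_left e2 (by positivity)
      _ = ρ * ((n : ℝ) + 1) ^ k * (ρ * (A' * Z)) := by ring
      _ ≤ ρ * ((n : ℝ) + 1) ^ k * (κ * κ' / 2) := by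
          apply mul_le_mul_of_nonneg_left _ (by positivity)
          refine le_trans ?_ ha₀2
          exact mul_le_mul_of_nonneg_right hρa (by positivity)
      _ = _ := by ring
  have e5 : ρ * (κ * κ' / 2) * ((n : ℝ) + 1) ^ k ≤ M * (2 + 2 ^ (k + 1)) := by
    have : ρ * κ * (κ' * ((n : ℝ) + 1) ^ k) - ρ * (κ * κ' / 2) * ((n : ℝ) + 1) ^ k =
        ρ * (κ * κ' / 2) * ((n : ℝ) + 1) ^ k := by ring
    linarith
  have e6 : ((n : ℝ) + 1) ^ k = P * ((n : ℝ) + 1) ^ (((k : ℝ) + 1) / 2) := by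
    rw [hP, ← Real.rpow_add (by linarith), ← Real.rpow_natCast]
    congr 1
    ring
  set Q : ℝ := ((n : ℝ) + 1) ^ (((k : ℝ) + 1) / 2) with hQ
  have e7 : ρ * (κ * κ' / 2) * ((n : ℝ) + 1) ^ k =
      a₀ * κ * κ' * Q / (2 * ((mm n : ℝ) + 1) ^ A) := by
    rw [hrh, hdl, e6]
    field_simp
  rw [e7, div_le_iff₀ (by positivity)] at e5
  rw [div_mul_eq_mul_div, div_le_iff₀ (by positivity)]
  calc a₀ * κ * κ' * Q ≤ M * (2 + 2 ^ (k + 1)) * (2 * ((mm n : ℝ) + 1) ^ A) := e5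
    _ = _ := by ring

end Pool.Agent.H553.CT
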