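import Pool.Graph.R_pool_sql_team_seeded_3dad9d7b.NH43.AD.Cor

set_option autoImplicit false
set_option linter.unusedSectionVars false

/-!
# The r-functions over a tree of times
-/

namespace Pool.Agent.H553.CT

open Finset
open Pool.Agent.H397R2.SD (E E_congr E_mono E_smul E_nonneg E_sum E_sub E_add E_zero abs_E_le
  E_const hit val dl dl_zero hit_prob E_smul')
open Pool.Agent.W776.GD (Om flp rad flp_flp rad_self rad_ne rad_other rad_sq abs_rad
  le_of_sum hit_flp flp_other flp_digit flp_self E_prod E_multi dd dd_ind dd_lin)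
open Pool.Agent.NH43.AD
open Pool.Agent.NH43.AD.CorH (flp_comm rad_or rad_fix)
open Pool.Agent.TH973.SD (hit_mono)

variable {d n : ℕ}

/-- `b` and `b'` have the same first `v` digits -/
def ag (v : ℕ) (b b' : Fin (n + 1) → Bool) : Prop := ∀ i : Fin (n + 1), (i : ℕ) < v → b i = b' i

theorem ag_refl (v : ℕ) (b : Fin (n + 1) → Bool) : ag v b b := fun _ _ => rfl

theorem ag_symm {v : ℕ} {b b' : Fin (n + 1) → Bool} (h : ag v b b') : ag v b' b :=
  fun i hi => (h i hi).symm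

theorem ag_trans {v : ℕ} {b b' b'' : Fin (n + 1) → Bool} (h : ag v b b') (h' : ag v b' b'') :
    ag v b b'' := fun i hi => (h i hi).trans (h' i hi)

theorem ag_mono {v v' : ℕ} (hv : v ≤ v') {b b' : Fin (n + 1) → Bool} (h : ag v' b b') :
    ag v b b' := fun i hi => h i (by omega)

theorem ag_upd (v : ℕ) (h : v < n + 1) (b : Fin (n + 1) → Bool) (a : Bool) :
    ag v b (Function.update b ⟨v, h⟩ a) := by
  intro i hi
  rw [Function.update_of_ne]
  intro e
  rw [e] at hi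
  exact lt_irrefl _ hi

theorem ag_flp (c c' : Fin (d + 1)) (v i : ℕ) (hi : c' = c → v ≤ i) (x : Om (d + 1) n) :
    ag v (x c') (flp c i x c') := by
  intro j hj
  by_cases hc : c' = c
  · subst hc
    rw [flp_digit c' i x j (by have := hi rfl; omega)]
  · rw [flp_other c c' hc]

/-- the times on a tree -/
structure TS (n : ℕ) (c₁ : ℝ) (t : (Fin (n + 1) → Bool) → ℕ)
    (br : ℕ → (Fin (n + 1) → Bool) → Prop) : Prop where
  lt : ∀ v b, br v b → v < n
  pre : ∀ v b b', ag v b b' → br v b → br v b'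
  wid : ∀ v b b', br v b → ag v b b' → t b' ≤ t b + 2 ^ (n - 1 - v)
  gap : ∀ v b b' (h : v < n + 1), br v b → ag v b b' → b ⟨v, h⟩ = false → b' ⟨v, h⟩ = true →
    (t b : ℝ) + c₁ * 2 ^ (n - v) ≤ t b'
  fix : ∀ v b (h : v < n + 1), ¬ br v b → t (Function.update b ⟨v, h⟩ (!(b ⟨v, h⟩))) = t b

/-- the number `k` lies in the span of the node given by the first `v` digits of `b` -/
def hitT (t : (Fin (n + 1) → Bool) → ℕ) (k v : ℕ) (b : Fin (n + 1) → Bool) : Prop :=
  ∃ b' b'', ag v b b' ∧ ag v b b'' ∧ t b' ≤ k ∧ k < t b''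

theorem hitT_ag (t : (Fin (n + 1) → Bool) → ℕ) (k v : ℕ) (b b₁ : Fin (n + 1) → Bool)
    (h : ag v b b₁) : hitT t k v b ↔ hitT t k v b₁ := by
  constructor
  · rintro ⟨b', b'', h1, h2, h3, h4⟩
    exact ⟨b', b'', ag_trans (ag_symm h) h1, ag_trans (ag_symm h) h2, h3, h4⟩
  · rintro ⟨b', b'', h1, h2, h3, h4⟩
    exact ⟨b', b'', ag_trans h h1, ag_trans h h2, h3, h4⟩

theorem hitT_mono (t : (Fin (n + 1) → Bool) → ℕ) (k v v' : ℕ) (hv : v ≤ v')
    (b : Fin (n + 1) → Bool) (h : hitT t k v' b) : hitT t k v b := by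
  obtain ⟨b', b'', h1, h2, h3, h4⟩ := h
  exact ⟨b', b'', ag_mono hv h1, ag_mono hv h2, h3, h4⟩

/-- the box of shape `r` around `x` contains no point -/
def emT (t : (Fin (n + 1) → Bool) → ℕ) (o : ℕ → Fin d → ℕ) (r : Fin (d + 1) → ℕ)
    (x : Om (d + 1) n) : Prop :=
  ∀ k : ℕ, ¬ (hitT t k (r 0) (x 0) ∧ ∀ c : Fin d, hit n (o k c) (r c.succ) (x c.succ))

theorem emT_flp (t : (Fin (n + 1) → Bool) → ℕ) (o : ℕ → Fin d → ℕ) (r : Fin (d + 1) → ℕ)
    (hr : ∀ c, r c ≤ n) (c : Fin (d + 1)) (i : ℕ) (hi : r c ≤ i) (x : Om (d + 1) n) :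
    emT t o r (flp c i x) ↔ emT t o r x := by
  unfold emT
  have h1 : ∀ k, hitT t k (r 0) (flp c i x 0) ↔ hitT t k (r 0) (x 0) := fun k =>
    (hitT_ag t k (r 0) _ _ (ag_flp c 0 (r 0) i (fun h => by rw [h]; exact hi) x)).symm
  have h2 : ∀ m : ℕ, ∀ c' : Fin d, hit n m (r c'.succ) (flp c i x c'.succ) ↔
      hit n m (r c'.succ) (x c'.succ) := by
    intro m c'
    exact hit_flp m (r c'.succ) (hr c'.succ) c c'.succ i (fun h => by rw [h]; exact hi) x
  simp only [h1, h2]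

theorem emT_mono (t : (Fin (n + 1) → Bool) → ℕ) (o : ℕ → Fin d → ℕ) (r p : Fin (d + 1) → ℕ)
    (hrp : ∀ c, r c ≤ p c) (hp : ∀ c, p c ≤ n) (x : Om (d + 1) n) (h : emT t o r x) :
    emT t o p x := fun k hk =>
  h k ⟨hitT_mono t k _ _ (hrp 0) _ hk.1, fun c => hit_mono (hrp c.succ) (hp c.succ) _ (hk.2 c)⟩

open Classical in
/-- the r-functions -/
noncomputable def fT (t : (Fin (n + 1) → Bool) → ℕ) (br : ℕ → (Fin (n + 1) → Bool) → Prop)
    (o : ℕ → Fin d → ℕ) (r : Fin (d + 1) → ℕ) (x : Om (d + 1) n) : ℝ :=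
  if ∑ c, r c = n ∧ br (r 0) (x 0) ∧ emT t o r x then -(∏ c, rad c (r c) x) else 0

theorem fT_le (t : (Fin (n + 1) → Bool) → ℕ) (br : ℕ → (Fin (n + 1) → Bool) → Prop)
    (o : ℕ → Fin d → ℕ) (r : Fin (d + 1) → ℕ) (x : Om (d + 1) n) : |fT t br o r x| ≤ 1 := by
  unfold fT
  split_ifs
  · rw [abs_neg, Finset.abs_prod]
    simp only [abs_rad, Finset.prod_const_one]
    exact le_rfl
  · simp

theorem br_flp {c₁ : ℝ} {t : (Fin (n + 1) → Bool) → ℕ} {br : ℕ → (Fin (n + 1) → Bool) → Prop}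
    (hT : TS n c₁ t br) (v : ℕ) (c : Fin (d + 1)) (i : ℕ) (hi : (0 : Fin (d + 1)) = c → v ≤ i)
    (x : Om (d + 1) n) : br v (flp c i x 0) ↔ br v (x 0) := by
  have h := ag_flp c 0 v i hi x
  exact ⟨hT.pre _ _ _ (ag_symm h), hT.pre _ _ _ h⟩

theorem fT_flp {c₁ : ℝ} {t : (Fin (n + 1) → Bool) → ℕ} {br : ℕ → (Fin (n + 1) → Bool) → Prop}
    (hT : TS n c₁ t br) (o : ℕ → Fin d → ℕ) (r : Fin (d + 1) → ℕ)
    (c : Fin (d + 1)) (i : ℕ) (hi : r c < i) (x : Om (d + 1) n) :
    fT t br o r (flp c i x) = fT t br o r x := by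
  unfold fT
  by_cases hr : ∑ c, r c = n
  · rw [emT_flp t o r (le_of_sum hr) c i hi.le,
      br_flp hT (r 0) c i (fun h => by rw [h]; exact hi.le)]
    have h : ∀ c' ∈ (univ : Finset (Fin (d + 1))), rad c' (r c') (flp c i x) =
        rad c' (r c') x := by
      intro c' _
      by_cases hc : c' = c
      · subst hc
        exact rad_ne c' c' i _ (by omega) x
      · exact rad_other c c' hc i _ x
    rw [Finset.prod_congr rfl h]
  · simp [hr]

theorem fT_odd {c₁ : ℝ} {t : (Fin (n + 1) → Bool) → ℕ} {br : ℕ → (Fin (n + 1) → Bool) → Prop}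
    (hT : TS n c₁ t br) (o : ℕ → Fin d → ℕ) (r : Fin (d + 1) → ℕ)
    (c : Fin (d + 1)) (x : Om (d + 1) n) :
    fT t br o r (flp c (r c) x) = - fT t br o r x := by
  unfold fT
  by_cases hr : ∑ c, r c = n
  · rw [emT_flp t o r (le_of_sum hr) c _ le_rfl,
      br_flp hT (r 0) c (r c) (fun h => by rw [h])]
    have h : ∏ c', rad c' (r c') (flp c (r c) x) = -(∏ c', rad c' (r c') x) := by
      rw [← Finset.mul_prod_erase univ _ (mem_univ c),
        ← Finset.mul_prod_erase univ (fun c' => rad c' (r c') x) (mem_univ c),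
        rad_self c (r c) (le_of_sum hr c) x, neg_mul]
      congr 2
      refine Finset.prod_congr rfl fun c' hc' => ?_
      exact rad_other c c' (ne_of_mem_erase hc') _ _ x
    rw [h]
    split_ifs <;> simp
  · simp [hr]

theorem hyp_T {c₁ : ℝ} {t : (Fin (n + 1) → Bool) → ℕ} {br : ℕ → (Fin (n + 1) → Bool) → Prop}
    (hT : TS n c₁ t br) (o : ℕ → Fin d → ℕ) :
    Hyp n (fun i v (x : Om (d + 1) n) => flp i v x) (fun i v x => rad i v x)
      (fun r x => fT t br o r x) :=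
  { inv := fun i v x => flp_flp i v x
    comm := fun i v j u x => flp_comm i v j u x
    sgn := fun i v x => rad_or i v x
    odd := fun i v x hv => rad_self i v hv x
    fixX := fun i v j u x h => rad_fix i v j u x h
    le := fun r x => fT_le t br o r x
    zero := fun r x h => by
      unfold fT
      rw [if_neg (fun h' => h h'.1)]
    oddf := fun r i x => fT_odd hT o r i x
    fixf := fun r i v x h => fT_flp hT o r i v h x }

/-! ### The differences in the time coordinate -/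

theorem dd_zero {c₁ : ℝ} {t : (Fin (n + 1) → Bool) → ℕ} {br : ℕ → (Fin (n + 1) → Bool) → Prop}
    (hT : TS n c₁ t br) (v : ℕ) (b : Fin (n + 1) → Bool) (hb : ¬ br v b) (φ : ℕ → ℝ) :
    dd v (fun b => φ (t b)) b = 0 := by
  unfold dd
  dsimp only
  split_ifs with h
  · have h1 := hT.fix v b h hb
    have hup : Function.update b ⟨v, h⟩ (b ⟨v, h⟩) = b := Function.update_eq_self _ _
    cases hbv : b ⟨v, h⟩ with
    | true =>
      rw [hbv] at h1 hup
      simp only [Bool.not_true] at h1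
      rw [h1, hup, sub_self]
    | false =>
      rw [hbv] at h1 hup
      simp only [Bool.not_false] at h1
      rw [h1, hup, sub_self]
  · rfl

theorem dd_time {c₁ : ℝ} {t : (Fin (n + 1) → Bool) → ℕ} {br : ℕ → (Fin (n + 1) → Bool) → Prop}
    (hT : TS n c₁ t br) (v : ℕ) (b : Fin (n + 1) → Bool) (hb : br v b) :
    c₁ * 2 ^ (n - v) ≤ dd v (fun b => ((t b : ℕ) : ℝ)) b ∧
      dd v (fun b => ((t b : ℕ) : ℝ)) b ≤ 2 ^ (n - 1 - v) := by
  have hv := hT.lt v b hb
  have h : v < n + 1 := by omega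
  unfold dd
  rw [dif_pos h]
  have e1 := ag_upd v h b false
  have e2 := ag_upd v h b true
  have e3 := ag_trans (ag_symm e1) e2
  have hb1 := hT.pre v _ _ e1 hb
  have g1 := hT.gap v _ _ h hb1 e3 (by rw [Function.update_self]) (by rw [Function.update_self])
  have g2 := hT.wid v _ _ hb1 e3
  have g3 : ((t (Function.update b ⟨v, h⟩ true) : ℕ) : ℝ) ≤
      ((t (Function.update b ⟨v, h⟩ false) : ℕ) : ℝ) + 2 ^ (n - 1 - v) := by exact_mod_cast g2
  constructor
  · linarith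
  · linarith

theorem dd_abs {c₁ : ℝ} (hc₁ : 0 ≤ c₁) {t : (Fin (n + 1) → Bool) → ℕ}
    {br : ℕ → (Fin (n + 1) → Bool) → Prop}
    (hT : TS n c₁ t br) (v : ℕ) (b : Fin (n + 1) → Bool) :
    |dd v (fun b => ((t b : ℕ) : ℝ)) b| ≤ 2 ^ n * (1 / 2 : ℝ) ^ (v + 1) := by
  by_cases hb : br v b
  · obtain ⟨h1, h2⟩ := dd_time hT v b hb
    have hv := hT.lt v b hb
    have h3 : 0 ≤ dd v (fun b => ((t b : ℕ) : ℝ)) b := le_trans (by positivity) h1
    rw [abs_of_nonneg h3]
    refine h2.trans (le_of_eq ?_)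
    have h4 : n = (n - 1 - v) + (v + 1) := by omega
    conv_rhs => rw [h4, pow_add, mul_assoc, ← mul_pow]
    norm_num
  · rw [dd_zero hT v b hb (fun m => (m : ℝ)), abs_zero]
    positivity

theorem dd_ind_time (t : (Fin (n + 1) → Bool) → ℕ) (k v : ℕ) (b : Fin (n + 1) → Bool)
    (h : ¬ hitT t k v b) :
    dd v (fun b => if k < t b then (1 : ℝ) else 0) b = 0 := by
  unfold dd
  dsimp only
  by_cases hv : v < n + 1
  · rw [dif_pos hv]
    by_cases h1 : k < t (Function.update b ⟨v, hv⟩ true)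
    · by_cases h2 : k < t (Function.update b ⟨v, hv⟩ false)
      · rw [if_pos h1, if_pos h2, sub_self]
      · exact absurd ⟨_, _, ag_upd v hv b false, ag_upd v hv b true, by omega, h1⟩ h
    · by_cases h2 : k < t (Function.update b ⟨v, hv⟩ false)
      · exact absurd ⟨_, _, ag_upd v hv b true, ag_upd v hv b false, by omega, h2⟩ h
      · rw [if_neg h1, if_neg h2, sub_self]
  · rw [dif_neg hv]

end Pool.Agent.H553.CT
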