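import Pool.Agent.H553.CT.Birth
import Pool.Agent.H553.CT.Abs

set_option autoImplicit false
set_option linter.unusedSectionVars false

/-!
# Correlations of the discrepancy over a tree of times
-/

namespace Pool.Agent.H553.CT

open Finset
open Pool.Agent.H397R2.SD (E E_congr E_mono E_smul E_nonneg E_sum E_sub E_add E_zero abs_E_le
  E_const hit val dl dl_zero hit_prob E_smul')
open Pool.Agent.W776.GD (Om flp rad flp_flp rad_self rad_ne rad_other rad_sq abs_rad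
  le_of_sum hit_flp flp_other flp_digit flp_self E_prod E_multi dd dd_ind dd_lin)
open Pool.Agent.NH43.AD
open Pool.Agent.H553.SB (E_odd)

variable {d n : ℕ}

/-- the discrepancy on the grid minus functions of fewer variables -/
noncomputable def FT (t : (Fin (n + 1) → Bool) → ℕ) (w : ℕ → ℝ) (o : ℕ → Fin d → ℕ)
    (u : Fin d → ℝ) (h : Fin (d + 1) → Om (d + 1) n → ℝ) (x : Om (d + 1) n) : ℝ :=
  ∑ k ∈ range (t (x 0)), w k * (if ∀ c, o k c ≤ val n (x c.succ) then (1 : ℝ) else 0) -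
    (t (x 0) : ℝ) * ∏ c : Fin d, (((val n (x c.succ) : ℕ) : ℝ) + u c) / 2 ^ (n + 1) - ∑ j, h j x

theorem cor_T {c₁ : ℝ} {t : (Fin (n + 1) → Bool) → ℕ} {br : ℕ → (Fin (n + 1) → Bool) → Prop}
    (_hT : TS n c₁ t br) (w : ℕ → ℝ) (o : ℕ → Fin d → ℕ) (u : Fin d → ℝ)
    (h : Fin (d + 1) → Om (d + 1) n → ℝ) (hh : ∀ j v x, h j (flp j v x) = h j x)
    (p : Fin (d + 1) → ℕ) (hp : ∀ i, p i ≤ n) (g : Om (d + 1) n → ℝ)
    (hodd : ∀ i x, g (flp i (p i) x) = - g x) (hs : ∀ x, g x ≠ 0 → emT t o p x) :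
    E (fun x => FT t w o u h x * g x) =
      -((1 / 2) ^ (d + 1) * ∏ c : Fin d, (1 / 2 : ℝ) ^ (p c.succ + 1)) *
        E (fun x => (∏ c, rad c (p c) x) * g x * dd (p 0) (fun b => ((t b : ℕ) : ℝ)) (x 0)) := by
  classical
  have ha' : ∀ c, p c < n + 1 := fun c => by have := hp c; omega
  obtain ⟨K, hK⟩ : ∃ K, ∀ b, t b ≤ K := ⟨univ.sup t, fun b => Finset.le_sup (mem_univ b)⟩
  set ψ : ℕ → Fin (d + 1) → (Fin (n + 1) → Bool) → ℝ := fun k =>
    Fin.cons (fun b => if k < t b then (1 : ℝ) else 0)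
      (fun c b => if o k c ≤ val n b then (1 : ℝ) else 0) with hψ
  set L : Fin (d + 1) → (Fin (n + 1) → Bool) → ℝ :=
    Fin.cons (fun b => ((t b : ℕ) : ℝ))
      (fun c b => (((val n b : ℕ) : ℝ) + u c) / 2 ^ (n + 1)) with hL
  have hI : ∀ (x : Om (d + 1) n) (k : ℕ), (∏ c, ψ k c (x c)) =
      (if k < t (x 0) then (1 : ℝ) else 0) *
        (if ∀ c, o k c ≤ val n (x c.succ) then (1 : ℝ) else 0) := by
    intro x k
    rw [Fin.prod_univ_succ]
    simp only [hψ, Fin.cons_zero, Fin.cons_succ]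
    congr 1
    by_cases h1 : ∀ c, o k c ≤ val n (x c.succ)
    · rw [if_pos h1]
      exact Finset.prod_eq_one fun c _ => if_pos (h1 c)
    · rw [if_neg h1]
      push Not at h1
      obtain ⟨c, hc⟩ := h1
      exact Finset.prod_eq_zero (Finset.mem_univ c) (if_neg (by omega))
  have hLx : ∀ x : Om (d + 1) n, (∏ c, L c (x c)) = (t (x 0) : ℝ) *
      ∏ c : Fin d, (((val n (x c.succ) : ℕ) : ℝ) + u c) / 2 ^ (n + 1) := by
    intro x
    rw [Fin.prod_univ_succ]
    simp only [hL, Fin.cons_zero, Fin.cons_succ]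
  have e1 : ∀ x : Om (d + 1) n, FT t w o u h x * g x =
      (∑ k ∈ range K, w k * ((∏ c, ψ k c (x c)) * g x)) - (∏ c, L c (x c)) * g x -
        ∑ j, h j x * g x := by
    intro x
    unfold FT
    rw [hLx, sub_mul, sub_mul, sum_mul, sum_mul]
    congr 2
    have e2 : ∑ k ∈ range K, w k * ((∏ c, ψ k c (x c)) * g x) =
        ∑ k ∈ range K, if k < t (x 0) then
          w k * (if ∀ c, o k c ≤ val n (x c.succ) then (1 : ℝ) else 0) * g x else 0 := by
      refine sum_congr rfl fun k _ => ?_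
      rw [hI]
      split_ifs <;> ring
    rw [e2, ← sum_filter]
    refine sum_congr ?_ fun _ _ => rfl
    ext k
    rw [mem_filter, mem_range, mem_range]
    constructor
    · intro hk
      exact ⟨lt_of_lt_of_le hk (hK _), hk⟩
    · exact fun hk => hk.2
  rw [E_congr e1, E_sub, E_sub, E_sum, E_sum]
  have z1 : ∀ k ∈ range K, E (fun x => w k * ((∏ c, ψ k c (x c)) * g x)) = 0 := by
    intro k _
    rw [E_smul, E_multi p ha' (ψ k) g hodd]
    have z2 : ∀ x : Om (d + 1) n, (∏ c, rad c (p c) x) * g x *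
        ∏ c, dd (p c) (ψ k c) (x c) = 0 := by
      intro x
      by_cases hx : g x = 0
      · rw [hx]; ring
      · have hem := hs x hx k
        rw [Fin.prod_univ_succ (fun c => dd (p c) (ψ k c) (x c))]
        by_cases h1 : hitT t k (p 0) (x 0)
        · obtain ⟨c, hc⟩ : ∃ c : Fin d, ¬ hit n (o k c) (p c.succ) (x c.succ) := by
            by_contra hcon
            push Not at hcon
            exact hem ⟨h1, hcon⟩
          have z3 : dd (p c.succ) (ψ k c.succ) (x c.succ) = 0 := by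
            simp only [hψ, Fin.cons_succ]
            rw [dd_ind]
            exact dl_zero n _ _ _ hc
          rw [Finset.prod_eq_zero (Finset.mem_univ c) z3]
          ring
        · have z3 : dd (p 0) (ψ k 0) (x 0) = 0 := by
            simp only [hψ, Fin.cons_zero]
            exact dd_ind_time t k (p 0) (x 0) h1
          rw [z3]
          ring
    rw [E_congr z2, E_zero, mul_zero, mul_zero]
  have z2 : ∀ j ∈ (univ : Finset (Fin (d + 1))), E (fun x => h j x * g x) = 0 := by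
    intro j _
    refine E_odd (flp j (p j)) (flp_flp j (p j)) _ fun x => ?_
    rw [hh, hodd]
    ring
  rw [sum_eq_zero z1, sum_eq_zero z2, E_multi p ha' L g hodd]
  have e3 : ∀ x : Om (d + 1) n, (∏ c, rad c (p c) x) * g x * ∏ c, dd (p c) (L c) (x c) =
      ((∏ c : Fin d, (1 / 2 : ℝ) ^ (p c.succ + 1))) * ((∏ c, rad c (p c) x) * g x *
        dd (p 0) (fun b => ((t b : ℕ) : ℝ)) (x 0)) := by
    intro x
    rw [Fin.prod_univ_succ (fun c => dd (p c) (L c) (x c))]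
    have e4 : ∀ c : Fin d, dd (p c.succ) (L c.succ) (x c.succ) = (1 / 2 : ℝ) ^ (p c.succ + 1) := by
      intro c
      simp only [hL, Fin.cons_succ]
      exact dd_lin (p c.succ) (ha' c.succ) (u c) (x c.succ)
    simp only [e4]
    have e5 : dd (p 0) (L 0) (x 0) = dd (p 0) (fun b => ((t b : ℕ) : ℝ)) (x 0) := by
      simp only [hL, Fin.cons_zero]
    rw [e5]
    ring
  rw [E_congr e3, E_smul]
  ring

theorem prod_half' (p : Fin (d + 1) → ℕ) :
    ∏ c : Fin d, (1 / 2 : ℝ) ^ (p c.succ + 1) =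
      (1 / 2 : ℝ) ^ (∑ c : Fin d, p c.succ) * (1 / 2) ^ d := by
  rw [Finset.prod_congr rfl fun c _ => pow_succ (1 / 2 : ℝ) (p (Fin.succ c)),
    Finset.prod_mul_distrib, Finset.prod_pow_eq_pow_sum, Finset.prod_const, Finset.card_univ,
    Fintype.card_fin]

theorem two_half (a b : ℕ) (h : a ≤ b) : (2 : ℝ) ^ a * (1 / 2) ^ b = (1 / 2) ^ (b - a) := by
  obtain ⟨c, rfl⟩ : ∃ c, b = a + c := ⟨b - a, by omega⟩
  rw [pow_add, ← mul_assoc, ← mul_pow, Nat.add_sub_cancel_left]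
  norm_num

/-- the upper cells -/
theorem cor_up {c₁ : ℝ} (hc₁ : 0 ≤ c₁) {t : (Fin (n + 1) → Bool) → ℕ}
    {br : ℕ → (Fin (n + 1) → Bool) → Prop}
    (hT : TS n c₁ t br) (w : ℕ → ℝ) (o : ℕ → Fin d → ℕ) (u : Fin d → ℝ)
    (h : Fin (d + 1) → Om (d + 1) n → ℝ) (hh : ∀ j v x, h j (flp j v x) = h j x)
    (p : Fin (d + 1) → ℕ) (hp : ∀ i, p i ≤ n) (hn : n ≤ ∑ i, p i) (g : Om (d + 1) n → ℝ)
    (hodd : ∀ i x, g (flp i (p i) x) = - g x) (hs : ∀ x, g x ≠ 0 → emT t o p x) :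
    |E (fun x => FT t w o u h x * g x)| ≤
      (1 / 2 : ℝ) ^ (∑ i, p i - n) * E (fun x => |g x|) := by
  rw [cor_T hT w o u h hh p hp g hodd hs, prod_half' p, abs_mul, abs_neg,
    abs_of_nonneg (by positivity)]
  have h1 : |E (fun x : Om (d + 1) n => (∏ c, rad c (p c) x) * g x *
      dd (p 0) (fun b => ((t b : ℕ) : ℝ)) (x 0))| ≤
      (2 ^ n * (1 / 2 : ℝ) ^ (p 0 + 1)) * E (fun x => |g x|) := by
    refine (abs_E_le _).trans ?_
    rw [← E_smul]
    refine E_mono fun x => ?_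
    rw [abs_mul, abs_mul, abs_prod]
    simp only [abs_rad, prod_const_one, one_mul]
    rw [mul_comm]
    exact mul_le_mul_of_nonneg_right (dd_abs hc₁ hT _ _) (abs_nonneg _)
  have h0 : 0 ≤ E (fun x : Om (d + 1) n => |g x|) := E_nonneg fun x => abs_nonneg _
  calc (1 / 2 : ℝ) ^ (d + 1) * ((1 / 2 : ℝ) ^ (∑ c : Fin d, p c.succ) * (1 / 2) ^ d) *
        |E (fun x : Om (d + 1) n => (∏ c, rad c (p c) x) * g x *
          dd (p 0) (fun b => ((t b : ℕ) : ℝ)) (x 0))|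
      ≤ (1 / 2 : ℝ) ^ (d + 1) * ((1 / 2 : ℝ) ^ (∑ c : Fin d, p c.succ) * (1 / 2) ^ d) *
        ((2 ^ n * (1 / 2 : ℝ) ^ (p 0 + 1)) * E (fun x => |g x|)) :=
        mul_le_mul_of_nonneg_left h1 (by positivity)
    _ = (1 / 2 : ℝ) ^ (2 * d + 2) * ((2 ^ n * (1 / 2 : ℝ) ^ (∑ i, p i)) * E (fun x => |g x|)) := by
        rw [Fin.sum_univ_succ, pow_add (1 / 2 : ℝ) (p 0) _]
        ring
    _ = (1 / 2 : ℝ) ^ (2 * d + 2) * ((1 / 2 : ℝ) ^ (∑ i, p i - n) * E (fun x => |g x|)) := by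
        rw [two_half n _ hn]
    _ ≤ 1 * ((1 / 2 : ℝ) ^ (∑ i, p i - n) * E (fun x => |g x|)) := by
        apply mul_le_mul_of_nonneg_right _ (by positivity)
        exact pow_le_one₀ (by norm_num) (by norm_num)
    _ = _ := one_mul _

/-- the middle cells -/
theorem cor_mid {c₁ : ℝ} (_hc₁ : 0 ≤ c₁) {t : (Fin (n + 1) → Bool) → ℕ}
    {br : ℕ → (Fin (n + 1) → Bool) → Prop}
    (hT : TS n c₁ t br) (w : ℕ → ℝ) (o : ℕ → Fin d → ℕ) (u : Fin d → ℝ)
    (h : Fin (d + 1) → Om (d + 1) n → ℝ) (hh : ∀ j v x, h j (flp j v x) = h j x)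
    (p : Fin (d + 1) → ℕ) (hn : ∑ i, p i = n) :
    c₁ * (1 / 2 : ℝ) ^ (2 * d + 1) * E (fun x => |fT t br o p x|) ≤
      E (fun x => FT t w o u h x * fT t br o p x) := by
  have hp : ∀ i, p i ≤ n := le_of_sum hn
  have hs : ∀ x, fT t br o p x ≠ 0 → emT t o p x := by
    intro x hx
    by_contra hcon
    apply hx
    unfold fT
    rw [if_neg (fun h' => hcon h'.2.2)]
  rw [cor_T hT w o u h hh p hp (fun x => fT t br o p x) (fun i x => fT_odd hT o p i x) hs,
    prod_half' p]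
  have hpt : ∀ x : Om (d + 1) n, (c₁ * 2 ^ (n - p 0)) * |fT t br o p x| ≤
      - ((∏ c, rad c (p c) x) * fT t br o p x *
        dd (p 0) (fun b => ((t b : ℕ) : ℝ)) (x 0)) := by
    intro x
    unfold fT
    split_ifs with hc
    · have r0 : (∏ c, rad c (p c) x) * (∏ c, rad c (p c) x) = 1 := by
        rw [← Finset.prod_mul_distrib]
        exact Finset.prod_eq_one fun c _ => rad_sq c (p c) x
      have r1 : |∏ c, rad c (p c) x| = 1 := by
        rw [Finset.abs_prod]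
        simp only [abs_rad, Finset.prod_const_one]
      rw [abs_neg, r1, mul_one]
      have h1 := (dd_time hT (p 0) (x 0) hc.2.1).1
      calc c₁ * 2 ^ (n - p 0) ≤ dd (p 0) (fun b => ((t b : ℕ) : ℝ)) (x 0) := h1
        _ = ((∏ c, rad c (p c) x) * (∏ c, rad c (p c) x)) *
            dd (p 0) (fun b => ((t b : ℕ) : ℝ)) (x 0) := by rw [r0, one_mul]
        _ = _ := by ring
    · simp
  have h1 := E_mono hpt
  rw [E_smul] at h1
  have e1 : ∀ (G : Om (d + 1) n → ℝ), -((1 / 2 : ℝ) ^ (d + 1) *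
      ((1 / 2 : ℝ) ^ (∑ c : Fin d, p c.succ) * (1 / 2) ^ d)) * E G =
      ((1 / 2 : ℝ) ^ (d + 1) * ((1 / 2 : ℝ) ^ (∑ c : Fin d, p c.succ) * (1 / 2) ^ d)) *
        E (fun x => - G x) := by
    intro G
    have : E (fun x => - G x) = - E G := by
      unfold E
      rw [sum_neg_distrib, neg_div]
    rw [this]
    ring
  rw [e1]
  refine le_trans (le_of_eq ?_) (mul_le_mul_of_nonneg_left h1 (by positivity))
  have e2 : ∑ c : Fin d, p c.succ = n - p 0 := by
    rw [Fin.sum_univ_succ] at hn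
    omega
  rw [e2]
  have e3 : (1 / 2 : ℝ) ^ (n - p 0) * 2 ^ (n - p 0) = 1 := by
    rw [← mul_pow]
    norm_num
  calc c₁ * (1 / 2 : ℝ) ^ (2 * d + 1) * E (fun x => |fT t br o p x|)
      = c₁ * (1 / 2 : ℝ) ^ (2 * d + 1) * E (fun x => |fT t br o p x|) * 1 := (mul_one _).symm
    _ = c₁ * (1 / 2 : ℝ) ^ (2 * d + 1) * E (fun x => |fT t br o p x|) *
        ((1 / 2 : ℝ) ^ (n - p 0) * 2 ^ (n - p 0)) := by rw [e3]
    _ = _ := by ring

end Pool.Agent.H553.CT
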