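import Pool.Agent.H553.CT.Seq

set_option autoImplicit false
set_option linter.unusedSectionVars false

/-!
# The discrepancy of sequences at almost all times, natural logarithms
-/

namespace Pool.Agent.H553.CT

open Finset
open Pool.Agent.NH43.AD (mm)

theorem log_facts {X : ℝ} (hX : 16 ≤ X) :
    1 ≤ Real.log X ∧ 0 ≤ Real.log (Real.log X) := by
  have h1 : Real.log 16 ≤ Real.log X := Real.log_le_log (by norm_num) hX
  have h2 : Real.log 16 = 4 * Real.log 2 := by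
    rw [show (16 : ℝ) = 2 ^ (4 : ℕ) by norm_num, Real.log_pow]
    norm_num
  have h3 := Real.log_two_gt_d9
  have h4 : 1 ≤ Real.log X := by linarith
  exact ⟨h4, Real.log_nonneg h4⟩

theorem mm_le (μ N H : ℕ) (hH : 16 ≤ H) (hN : 1 ≤ N) (h : 2 ^ (μ * (N - 1)) < H) :
    (mm (μ * N + 1) : ℝ) + 1 ≤ (2 * μ + 13) * (1 + Real.log (Real.log H)) := by
  have hH' : (16 : ℝ) ≤ H := by exact_mod_cast hH
  obtain ⟨hl1, hl2⟩ := log_facts hH'
  have h2 := Real.log_two_gt_d9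
  have hμ : (0 : ℝ) ≤ μ := Nat.cast_nonneg _
  -- `μ (N - 1) ≤ 2 log H`
  have e1 : ((μ * (N - 1) : ℕ) : ℝ) ≤ 2 * Real.log H := by
    have h3 : ((2 : ℝ) ^ (μ * (N - 1))) ≤ H := by exact_mod_cast h.le
    have h4 := Real.log_le_log (by positivity) h3
    rw [Real.log_pow] at h4
    have h5 : (0 : ℝ) ≤ ((μ * (N - 1) : ℕ) : ℝ) := Nat.cast_nonneg _
    nlinarith
  have e2 : ((μ * N + 1 + 2 : ℕ) : ℝ) ≤ (μ + 5) * Real.log H := by
    have h3 : μ * N = μ * (N - 1) + μ := by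
      obtain ⟨m, rfl⟩ : ∃ m, N = m + 1 := ⟨N - 1, by omega⟩
      simp [mul_add]
    have h4 : ((μ * N + 1 + 2 : ℕ) : ℝ) = ((μ * (N - 1) : ℕ) : ℝ) + μ + 3 := by
      rw [h3]
      push_cast
      ring
    rw [h4]
    nlinarith
  have e3 : (Nat.log 2 (μ * N + 1 + 2) : ℝ) * Real.log 2 ≤ Real.log (Real.log H) + (μ + 5) := by
    have h3 : 2 ^ Nat.log 2 (μ * N + 1 + 2) ≤ μ * N + 1 + 2 := Nat.pow_log_le_self 2 (by omega)
    have h4 : ((2 : ℝ) ^ Nat.log 2 (μ * N + 1 + 2)) ≤ ((μ * N + 1 + 2 : ℕ) : ℝ) := by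
      exact_mod_cast h3
    have h5 := Real.log_le_log (by positivity) (h4.trans e2)
    rw [Real.log_pow, Real.log_mul (by positivity) (by linarith)] at h5
    have h6 : Real.log ((μ : ℝ) + 5) ≤ μ + 5 := by
      have := Real.log_le_sub_one_of_pos (show (0 : ℝ) < (μ : ℝ) + 5 by positivity)
      linarith
    linarith
  have e4 : (Nat.log 2 (μ * N + 1 + 2) : ℝ) ≤ 2 * (Real.log (Real.log H) + (μ + 5)) := by
    have h5 : (0 : ℝ) ≤ (Nat.log 2 (μ * N + 1 + 2) : ℝ) := Nat.cast_nonneg _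
    nlinarith
  unfold mm
  push_cast
  nlinarith

/-- **All but `H^ε` of the times in a window.** -/
theorem main_log (d : ℕ) (hd : 2 ≤ d) (ε : ℝ) (hε : 0 < ε) : ∃ A : ℕ, ∃ c : ℝ, 0 < c ∧
    ∃ H₀ : ℕ, 16 ≤ H₀ ∧ ∀ (w : ℕ → ℝ) (z : ℕ → Fin d → ℝ) (f : (Fin d → ℝ) → ℝ)
    (h : Fin d → (Fin d → ℝ) → ℕ → ℝ),
    (∀ (i : Fin d) (x : Fin d → ℝ) (a : ℝ) (n : ℕ), h i (Function.update x i a) n = h i x n) →
    ∀ (s H : ℕ), H₀ ≤ H → ∀ S : Finset ℕ, (∀ n ∈ S, s ≤ n ∧ n < s + H) →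
    (∀ n ∈ S, ∀ x : Fin d → ℝ, (∀ i, 0 < x i ∧ x i < 1) →
      |DW w z f h n x| < c * (Real.log H) ^ (((d : ℝ) + 1) / 2) /
        (1 + Real.log (Real.log H)) ^ A) →
    (S.card : ℝ) ≤ (H : ℝ) ^ ε := by
  obtain ⟨μ, hμ, c, hc, A, K⟩ := main_dy d hd ε hε
  have hC : (0 : ℝ) < (2 * μ + 13 : ℝ) ^ A := by positivity
  refine ⟨A, c / (2 * (2 * μ + 13 : ℝ) ^ A), by positivity, 2 ^ μ + 16,
    Nat.le_add_left 16 (2 ^ μ), ?_⟩
  intro w z f h hh s H hH S hS hM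
  have h16 : 16 ≤ H := (Nat.le_add_left 16 (2 ^ μ)).trans hH
  have hH' : (16 : ℝ) ≤ H := by exact_mod_cast h16
  obtain ⟨hl1, hl2⟩ := log_facts hH'
  have hb : 1 < 2 ^ μ := Nat.one_lt_two_pow (by omega)
  set N : ℕ := Nat.clog (2 ^ μ) H with hN
  have hN1 : H ≤ 2 ^ (μ * N) := by
    rw [pow_mul]
    exact Nat.le_pow_clog hb H
  have hN2 : 2 ^ (μ * (N - 1)) < H := by
    rw [pow_mul]
    exact Nat.pow_pred_clog_lt_self hb (by omega)
  have hN3 : 2 ≤ N := by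
    by_contra hcon
    push Not at hcon
    have h1 : μ * N ≤ μ := by
      calc μ * N ≤ μ * 1 := Nat.mul_le_mul_left _ (by omega)
        _ = μ := mul_one _
    have h2 : 2 ^ (μ * N) ≤ 2 ^ μ := Nat.pow_le_pow_right (by norm_num) h1
    omega
  by_contra hcard
  push Not at hcard
  have h1 : (2 : ℝ) ^ ((μ : ℝ) * ε * ((N : ℝ) - 1)) < S.card := by
    refine lt_of_le_of_lt ?_ hcard
    have h2 : ((2 : ℝ) ^ (μ * (N - 1))) ≤ H := by exact_mod_cast hN2.le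
    calc (2 : ℝ) ^ ((μ : ℝ) * ε * ((N : ℝ) - 1)) = ((2 : ℝ) ^ (μ * (N - 1))) ^ ε := by
          rw [← Real.rpow_natCast, ← Real.rpow_mul (by norm_num)]
          congr 1
          rw [Nat.cast_mul, Nat.cast_sub (by omega)]
          push_cast
          ring
      _ ≤ (H : ℝ) ^ ε := Real.rpow_le_rpow (by positivity) h2 hε.le
  obtain ⟨M, hMd⟩ : ∃ M : ℝ, M = c / (2 * (2 * μ + 13 : ℝ) ^ A) *
    (Real.log H) ^ (((d : ℝ) + 1) / 2) / (1 + Real.log (Real.log H)) ^ A := ⟨_, rfl⟩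
  have h2 := K w z f h hh s N hN3 S
    (fun n hn => ⟨(hS n hn).1, lt_of_lt_of_le (hS n hn).2 (by omega)⟩) h1 M
    (fun n hn x hx => by rw [hMd]; exact (hM n hn x hx).le)
  have h3 := mm_le μ N H h16 (by omega) hN2
  have hlp : 0 < Real.log H := by linarith
  have hpow : 0 < (Real.log H) ^ (((d : ℝ) + 1) / 2) := Real.rpow_pos_of_pos hlp _
  have h4 : (Real.log H) ^ (((d : ℝ) + 1) / 2) ≤ ((μ : ℝ) * N + 2) ^ (((d : ℝ) + 1) / 2) := by
    apply Real.rpow_le_rpow hlp.le _ (by positivity)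
    have h5 : (H : ℝ) ≤ (2 : ℝ) ^ (μ * N) := by exact_mod_cast hN1
    have h6 := Real.log_le_log (by linarith) h5
    rw [Real.log_pow] at h6
    have h7 : Real.log 2 ≤ 1 := by
      have := Real.log_two_lt_d9
      linarith
    have h8 : (0 : ℝ) ≤ ((μ * N : ℕ) : ℝ) := Nat.cast_nonneg _
    have h9 : ((μ * N : ℕ) : ℝ) = (μ : ℝ) * N := by push_cast; ring
    rw [h9] at h6 h8
    nlinarith
  have hl3 : (0 : ℝ) < (1 + Real.log (Real.log H)) ^ A := by positivity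
  have hM0 : 0 < M := by rw [hMd]; positivity
  have h5 : ((mm (μ * N + 1) : ℝ) + 1) ^ A * M ≤
      c / 2 * (Real.log H) ^ (((d : ℝ) + 1) / 2) := by
    calc ((mm (μ * N + 1) : ℝ) + 1) ^ A * M
        ≤ ((2 * μ + 13) * (1 + Real.log (Real.log H))) ^ A * M :=
          mul_le_mul_of_nonneg_right (pow_le_pow_left₀ (by positivity) h3 A) hM0.le
      _ = _ := by
          rw [hMd, mul_pow]
          field_simp
  have h6 : c * (Real.log H) ^ (((d : ℝ) + 1) / 2) ≤ c / 2 * (Real.log H) ^ (((d : ℝ) + 1) / 2) :=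
    (mul_le_mul_of_nonneg_left h4 hc.le).trans (h2.trans h5)
  nlinarith [mul_pos hc hpow]

/-- **All but `X^ε` of the numbers up to `X`.** -/
theorem cor_log (d : ℕ) (hd : 2 ≤ d) (ε : ℝ) (hε : 0 < ε) : ∃ A : ℕ, ∃ c : ℝ, 0 < c ∧
    ∃ X₀ : ℕ, 16 ≤ X₀ ∧ ∀ (z : ℕ → Fin d → ℝ) (X : ℕ), X₀ ≤ X → ∀ S : Finset ℕ,
    (∀ n ∈ S, 16 ≤ n ∧ n < X) →
    (∀ n ∈ S, ∀ x : Fin d → ℝ, (∀ i, 0 < x i ∧ x i < 1) →
      |DW (fun _ => 1) z 0 0 n x| < c * (Real.log n) ^ (((d : ℝ) + 1) / 2) /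
        (1 + Real.log (Real.log n)) ^ A) →
    (S.card : ℝ) ≤ (X : ℝ) ^ ε := by
  classical
  obtain ⟨A, c, hc, H₀, hH₀, K⟩ := main_log d hd (ε / 2) (by positivity)
  -- largeness of `X`
  obtain ⟨X₁, hX₁⟩ : ∃ X₁ : ℕ, ∀ X : ℕ, X₁ ≤ X → 2 ≤ (X : ℝ) ^ (ε / 2) ∧
      -1 - 2 * Real.log (ε / 2) ≤ Real.log (Real.log X) := by
    have t1 : Filter.Tendsto (fun X : ℕ => (X : ℝ) ^ (ε / 2)) Filter.atTop Filter.atTop :=
      (tendsto_rpow_atTop (by positivity)).comp tendsto_natCast_atTop_atTop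
    have t2 : Filter.Tendsto (fun X : ℕ => Real.log (Real.log X)) Filter.atTop Filter.atTop :=
      Real.tendsto_log_atTop.comp (Real.tendsto_log_atTop.comp tendsto_natCast_atTop_atTop)
    obtain ⟨X₁, h⟩ := Filter.eventually_atTop.1
      ((t1.eventually_ge_atTop 2).and (t2.eventually_ge_atTop (-1 - 2 * Real.log (ε / 2))))
    exact ⟨X₁, h⟩
  refine ⟨A, c / 2 ^ A, by positivity, H₀ + X₁, by omega, ?_⟩
  intro z X hX S hS hM
  obtain ⟨hx1, hx2⟩ := hX₁ X (by omega)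
  have hX16 : (16 : ℝ) ≤ X := by
    have : 16 ≤ X := by omega
    exact_mod_cast this
  have hX0 : (0 : ℝ) < X := by linarith
  obtain ⟨hl1, hl2⟩ := log_facts hX16
  set S₁ := S.filter (fun n : ℕ => (n : ℝ) ≤ (X : ℝ) ^ (ε / 2)) with hS₁
  set S₂ := S.filter (fun n : ℕ => ¬ ((n : ℝ) ≤ (X : ℝ) ^ (ε / 2))) with hS₂
  have hc1 : (S₁.card : ℝ) ≤ (X : ℝ) ^ (ε / 2) := by
    have h1 : S₁ ⊆ Finset.Icc 1 ⌊(X : ℝ) ^ (ε / 2)⌋₊ := by
      intro n hn
      obtain ⟨h2, h3⟩ := mem_filter.1 hn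
      have h4 := (hS n h2).1
      rw [mem_Icc]
      exact ⟨by omega, Nat.le_floor h3⟩
    have h2 := card_le_card h1
    rw [Nat.card_Icc, Nat.add_sub_cancel] at h2
    calc (S₁.card : ℝ) ≤ (⌊(X : ℝ) ^ (ε / 2)⌋₊ : ℝ) := by exact_mod_cast h2
      _ ≤ _ := Nat.floor_le (by positivity)
  have hc2 : (S₂.card : ℝ) ≤ (X : ℝ) ^ (ε / 2) := by
    refine K (fun _ => 1) z 0 0 (fun _ _ _ _ => rfl) 0 X (by omega) S₂ ?_ ?_
    · intro n hn
      have := hS n (mem_filter.1 hn).1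
      omega
    · intro n hn x hx
      obtain ⟨h2, h3⟩ := mem_filter.1 hn
      push Not at h3
      obtain ⟨h4, h5⟩ := hS n h2
      refine lt_of_lt_of_le (hM n h2 x hx) ?_
      have hn16 : (16 : ℝ) ≤ n := by exact_mod_cast h4
      obtain ⟨hm1, hm2⟩ := log_facts hn16
      have h6 : ε / 2 * Real.log X ≤ Real.log n := by
        have := Real.log_le_log (by positivity) h3.le
        rwa [Real.log_rpow hX0] at this
      have h7 : Real.log (ε / 2) + Real.log (Real.log X) ≤ Real.log (Real.log n) := by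
        rw [← Real.log_mul (by positivity) (by linarith)]
        exact Real.log_le_log (by positivity) h6
      have h8 : (1 + Real.log (Real.log X)) / 2 ≤ 1 + Real.log (Real.log n) := by linarith
      have h9 : Real.log n ≤ Real.log X := by
        apply Real.log_le_log (by linarith)
        exact_mod_cast h5.le
      have h10 : (Real.log n) ^ (((d : ℝ) + 1) / 2) ≤ (Real.log X) ^ (((d : ℝ) + 1) / 2) :=
        Real.rpow_le_rpow (by linarith) h9 (by positivity)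
      have h11 : (1 + Real.log (Real.log X)) ^ A ≤ 2 ^ A * (1 + Real.log (Real.log n)) ^ A := by
        rw [← mul_pow]
        apply pow_le_pow_left₀ (by linarith)
        linarith
      have p1 : (0 : ℝ) < (1 + Real.log (Real.log X)) ^ A := by positivity
      have p2 : (0 : ℝ) < (1 + Real.log (Real.log n)) ^ A := by positivity
      have p3 : (0 : ℝ) ≤ (Real.log n) ^ (((d : ℝ) + 1) / 2) :=
        Real.rpow_nonneg (by linarith) _
      rw [div_le_div_iff₀ p2 p1]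
      calc c / 2 ^ A * (Real.log n) ^ (((d : ℝ) + 1) / 2) * (1 + Real.log (Real.log X)) ^ A
          ≤ c / 2 ^ A * (Real.log n) ^ (((d : ℝ) + 1) / 2) *
            (2 ^ A * (1 + Real.log (Real.log n)) ^ A) :=
            mul_le_mul_of_nonneg_left h11 (by positivity)
        _ = c * (Real.log n) ^ (((d : ℝ) + 1) / 2) * (1 + Real.log (Real.log n)) ^ A := by
            field_simp
        _ ≤ c * (Real.log X) ^ (((d : ℝ) + 1) / 2) * (1 + Real.log (Real.log n)) ^ A := by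
            apply mul_le_mul_of_nonneg_right _ p2.le
            exact mul_le_mul_of_nonneg_left h10 hc.le
  have hsum : (S.card : ℝ) = S₁.card + S₂.card := by
    have := card_filter_add_card_filter_not (s := S) (fun n : ℕ => (n : ℝ) ≤ (X : ℝ) ^ (ε / 2))
    rw [← hS₁, ← hS₂] at this
    exact_mod_cast this.symm
  rw [hsum]
  have h12 : (X : ℝ) ^ ε = (X : ℝ) ^ (ε / 2) * (X : ℝ) ^ (ε / 2) := by
    rw [← Real.rpow_add hX0]
    congr 1
    ring
  rw [h12]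
  nlinarith

end Pool.Agent.H553.CT
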