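import Pool.Agent.H553.CT.Corr

set_option autoImplicit false
set_option linter.unusedSectionVars false

/-!
# The lower bound on the grid over a tree of times
-/

namespace Pool.Agent.H553.CT

open Finset
open Pool.Agent.H397R2.SD (E E_congr E_mono E_smul E_nonneg E_sum E_sub E_add E_zero abs_E_le
  E_const hit val dl dl_zero hit_prob E_smul')
open Pool.Agent.W776.GD (Om flp rad flp_flp rad_self rad_ne rad_other rad_sq abs_rad
  le_of_sum hit_flp flp_other flp_digit flp_self E_prod E_multi dd dd_ind dd_lin)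
open Pool.Agent.NH43.AD
open Pool.Agent.NH43.AD.PairAux (mem_cells)

variable {d n : ℕ}

open Classical in
/-- the number of the `k` in the span of a branching node -/
theorem card_hitT {c₁ : ℝ} {t : (Fin (n + 1) → Bool) → ℕ}
    {br : ℕ → (Fin (n + 1) → Bool) → Prop} (hT : TS n c₁ t br) (v : ℕ)
    (b : Fin (n + 1) → Bool) (hb : br v b) (K : ℕ) :
    ((range K).filter (fun k => hitT t k v b)).card ≤ 2 ^ (n - 1 - v) := by
  obtain ⟨b₀, hb₀, hmin⟩ := exists_min_image
    (univ.filter (fun b' : Fin (n + 1) → Bool => ag v b b')) t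
    ⟨b, mem_filter.2 ⟨mem_univ _, ag_refl v b⟩⟩
  have h0 := (mem_filter.1 hb₀).2
  have hsub : (range K).filter (fun k => hitT t k v b) ⊆
      Ico (t b₀) (t b₀ + 2 ^ (n - 1 - v)) := by
    intro k hk
    obtain ⟨b', b'', h1, h2, h3, h4⟩ := (mem_filter.1 hk).2
    have h5 := hmin b' (mem_filter.2 ⟨mem_univ _, h1⟩)
    have h6 := hT.wid v b₀ b'' (hT.pre v _ _ h0 hb) (ag_trans (ag_symm h0) h2)
    rw [mem_Ico]
    omega
  have := card_le_card hsub
  rwa [Nat.card_Ico, Nat.add_sub_cancel_left] at this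

theorem E_split (φ : (Fin (n + 1) → Bool) → ℝ) (χ : Fin d → (Fin (n + 1) → Bool) → ℝ) :
    E (fun x : Om (d + 1) n => φ (x 0) * ∏ c : Fin d, χ c (x c.succ)) =
      E φ * ∏ c, E (χ c) := by
  have h := E_prod (d := d + 1) (n := n) (Fin.cons φ χ)
  rw [Fin.prod_univ_succ] at h
  simp only [Fin.cons_zero, Fin.cons_succ] at h
  rw [← h]
  refine E_congr fun x => ?_
  rw [Fin.prod_univ_succ]
  simp only [Fin.cons_zero, Fin.cons_succ]

theorem E_zeroth (φ : (Fin (n + 1) → Bool) → ℝ) :
    E (fun x : Om (d + 1) n => φ (x 0)) = E φ := by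
  have h := E_split (d := d) (n := n) φ (fun _ _ => 1)
  rw [E_const, prod_const_one, mul_one] at h
  rw [← h]
  refine E_congr fun x => ?_
  rw [mul_one]

open Classical in
/-- at least half of the boxes over a branching node are empty -/
theorem half_empty {c₁ : ℝ} {t : (Fin (n + 1) → Bool) → ℕ}
    {br : ℕ → (Fin (n + 1) → Bool) → Prop} (hT : TS n c₁ t br) (o : ℕ → Fin d → ℕ)
    (p : Fin (d + 1) → ℕ) (hn : ∑ i, p i = n) :
    1 / 2 * E (fun x : Om (d + 1) n => if br (p 0) (x 0) then (1 : ℝ) else 0) ≤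
      E (fun x : Om (d + 1) n => |fT t br o p x|) := by
  have hp : ∀ i, p i ≤ n := le_of_sum hn
  by_cases hpn : p 0 < n
  swap
  · have h0 : ∀ x : Om (d + 1) n, (if br (p 0) (x 0) then (1 : ℝ) else 0) = 0 := by
      intro x
      rw [if_neg (fun h => hpn (hT.lt _ _ h))]
    rw [E_congr h0, E_zero, mul_zero]
    exact E_nonneg fun x => abs_nonneg _
  obtain ⟨K, hK⟩ : ∃ K, ∀ b, t b ≤ K := ⟨univ.sup t, fun b => Finset.le_sup (mem_univ b)⟩
  have hpt : ∀ x : Om (d + 1) n, |fT t br o p x| = (if br (p 0) (x 0) then (1 : ℝ) else 0) -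
      (if br (p 0) (x 0) ∧ ¬ emT t o p x then 1 else 0) := by
    intro x
    unfold fT
    have r1 : |∏ c, rad c (p c) x| = 1 := by
      rw [Finset.abs_prod]
      simp only [abs_rad, Finset.prod_const_one]
    by_cases h1 : br (p 0) (x 0)
    · by_cases h2 : emT t o p x
      · rw [if_pos ⟨hn, h1, h2⟩, if_pos h1, if_neg (fun h => h.2 h2), abs_neg, r1]
        ring
      · rw [if_neg (fun h => h2 h.2.2), if_pos h1, if_pos ⟨h1, h2⟩]
        simp
    · rw [if_neg (fun h => h1 h.2.1), if_neg h1, if_neg (fun h => h1 h.1)]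
      simp
  have hne : E (fun x : Om (d + 1) n => if br (p 0) (x 0) ∧ ¬ emT t o p x then (1 : ℝ) else 0) ≤
      1 / 2 * E (fun b : Fin (n + 1) → Bool => if br (p 0) b then (1 : ℝ) else 0) := by
    set φ : ℕ → (Fin (n + 1) → Bool) → ℝ :=
      fun k b => if br (p 0) b ∧ hitT t k (p 0) b then 1 else 0 with hφ
    set χ : ℕ → Fin d → (Fin (n + 1) → Bool) → ℝ :=
      fun k c b => if hit n (o k c) (p c.succ) b then 1 else 0 with hχ
    have hφ0 : ∀ k b, 0 ≤ φ k b := by
      intro k b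
      rw [hφ]
      dsimp only
      split_ifs <;> norm_num
    have hχ0 : ∀ k c b, 0 ≤ χ k c b := by
      intro k c b
      rw [hχ]
      dsimp only
      split_ifs <;> norm_num
    calc E (fun x : Om (d + 1) n => if br (p 0) (x 0) ∧ ¬ emT t o p x then (1 : ℝ) else 0)
        ≤ E (fun x : Om (d + 1) n => ∑ k ∈ range K, φ k (x 0) * ∏ c : Fin d, χ k c (x c.succ)) := by
          refine E_mono fun x => ?_
          have hnn : ∀ k ∈ range K, 0 ≤ φ k (x 0) * ∏ c : Fin d, χ k c (x c.succ) := fun k _ =>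
            mul_nonneg (hφ0 k _) (prod_nonneg fun c _ => hχ0 k c _)
          split_ifs with he
          · obtain ⟨h1, h2⟩ := he
            unfold emT at h2
            push Not at h2
            obtain ⟨k, h3, h4⟩ := h2
            have hkK : k ∈ range K := by
              obtain ⟨b', b'', _, _, _, h5⟩ := h3
              exact mem_range.2 (lt_of_lt_of_le h5 (hK b''))
            refine le_trans (le_of_eq ?_) (single_le_sum hnn hkK)
            rw [hφ, hχ]
            dsimp only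
            rw [if_pos ⟨h1, h3⟩, Finset.prod_eq_one fun c _ => if_pos (h4 c), mul_one]
          · exact sum_nonneg hnn
      _ = ∑ k ∈ range K, E (φ k) * ∏ c, E (χ k c) := by
          rw [E_sum]
          exact sum_congr rfl fun k _ => E_split _ _
      _ ≤ ∑ k ∈ range K, E (φ k) * (1 / 2 : ℝ) ^ (n - p 0) := by
          refine sum_le_sum fun k _ => ?_
          refine mul_le_mul_of_nonneg_left ?_ (E_nonneg (hφ0 k))
          have e2 : ∑ c : Fin d, p c.succ = n - p 0 := by
            rw [Fin.sum_univ_succ] at hn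
            omega
          rw [← e2, ← Finset.prod_pow_eq_pow_sum]
          exact prod_le_prod (fun c _ => E_nonneg (hχ0 k c))
            (fun c _ => hit_prob n (o k c) (p c.succ) (hp c.succ))
      _ = (1 / 2 : ℝ) ^ (n - p 0) * E (fun b => ∑ k ∈ range K, φ k b) := by
          rw [← Finset.sum_mul, E_sum]
          ring
      _ ≤ (1 / 2 : ℝ) ^ (n - p 0) * E (fun b : Fin (n + 1) → Bool =>
            2 ^ (n - 1 - p 0) * (if br (p 0) b then (1 : ℝ) else 0)) := by
          refine mul_le_mul_of_nonneg_left (E_mono fun b => ?_) (by positivity)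
          by_cases hb : br (p 0) b
          · rw [if_pos hb, mul_one]
            have h1 : ∑ k ∈ range K, φ k b =
                (((range K).filter (fun k => hitT t k (p 0) b)).card : ℝ) := by
              rw [card_filter]
              push_cast
              refine sum_congr rfl fun k _ => ?_
              rw [hφ]
              dsimp only
              by_cases h2 : hitT t k (p 0) b
              · rw [if_pos ⟨hb, h2⟩, if_pos h2]
              · rw [if_neg (fun h => h2 h.2), if_neg h2]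
            rw [h1]
            exact_mod_cast card_hitT hT (p 0) b hb K
          · rw [if_neg hb, mul_zero]
            refine le_of_eq (sum_eq_zero fun k _ => ?_)
            rw [hφ]
            dsimp only
            rw [if_neg (fun h => hb h.1)]
      _ = 1 / 2 * E (fun b : Fin (n + 1) → Bool => if br (p 0) b then (1 : ℝ) else 0) := by
          rw [E_smul, ← mul_assoc]
          congr 1
          have e3 : n - p 0 = (n - 1 - p 0) + 1 := by omega
          rw [e3, pow_succ, mul_assoc, mul_comm (1 / 2 : ℝ) (2 ^ (n - 1 - p 0)), ← mul_assoc,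
            ← mul_pow]
          norm_num
  rw [E_congr hpt, E_sub]
  have e1 := E_zeroth (d := d) (n := n) (fun b => if br (p 0) b then (1 : ℝ) else 0)
  rw [e1]
  linarith

/-- the number of the cells over the branching levels -/
theorem count_R (k n : ℕ) (R : Finset ℕ) (hR : ∀ v ∈ R, v < n) (δ : ℝ) (hδ : 0 ≤ δ)
    (h : δ * ((n : ℝ) + 1) ≤ R.card) :
    (δ / (2 * ((k : ℝ) + 1))) ^ (k + 1) * ((n : ℝ) + 1) ^ (k + 1) ≤
      ((((cells (fun _ : Fin (k + 2) => n)).filter (fun p => ∑ i, p i = n)).filter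
        (fun p => p 0 ∈ R)).card : ℝ) := by
  classical
  set r : ℕ := R.card with hr
  set q : ℕ := r / (2 * (k + 1)) with hq
  have hq1 : 2 * (k + 1) * q ≤ r := Nat.mul_div_le r (2 * (k + 1))
  have hq2 : r + 1 ≤ 2 * (k + 1) * (q + 1) := by
    have := Nat.lt_mul_div_succ r (show 0 < 2 * (k + 1) by positivity)
    rw [← hq] at this
    exact this
  have hq3 : 2 * (k * q) ≤ r := by
    calc 2 * (k * q) ≤ 2 * (k + 1) * q := by nlinarith
      _ ≤ r := hq1
  set R' : Finset ℕ := R.filter (fun v => v + k * q ≤ n) with hR'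
  have hcR : r ≤ R'.card + k * q := by
    have h1 : (R.filter (fun v => ¬ (v + k * q ≤ n))) ⊆ Ico (n - k * q) n := by
      intro v hv
      obtain ⟨h2, h3⟩ := mem_filter.1 hv
      have := hR v h2
      rw [mem_Ico]
      omega
    have h2 := card_le_card h1
    rw [Nat.card_Ico] at h2
    have h3 := card_filter_add_card_filter_not (s := R) (fun v => v + k * q ≤ n)
    rw [← hR'] at h3
    omega
  have h1 : (R' ×ˢ Fintype.piFinset (fun _ : Fin k => range (q + 1))).card ≤
      (((cells (fun _ : Fin (k + 2) => n)).filter (fun p => ∑ i, p i = n)).filter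
        (fun p => p 0 ∈ R)).card := by
    refine Finset.card_le_card_of_injOn
      (fun vb => (Fin.cons vb.1 (Fin.cons (n - vb.1 - ∑ i, vb.2 i) vb.2) : Fin (k + 2) → ℕ)) ?_ ?_
    · rintro ⟨v, b⟩ hvb
      rw [Finset.mem_coe, mem_product, Fintype.mem_piFinset] at hvb
      obtain ⟨hv, hb⟩ := hvb
      have hv1 := (mem_filter.1 hv).1
      have hv2 := (mem_filter.1 hv).2
      dsimp only at hb hv2
      have hb' : ∀ i, b i ≤ q := fun i => by have := mem_range.1 (hb i); omega
      have hs : ∑ i, b i ≤ k * q := by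
        calc ∑ i, b i ≤ ∑ _i : Fin k, q := Finset.sum_le_sum fun i _ => hb' i
          _ = k * q := by rw [Finset.sum_const, Finset.card_univ, Fintype.card_fin, smul_eq_mul]
      rw [Finset.mem_coe, mem_filter, mem_filter, mem_cells]
      refine ⟨⟨?_, ?_⟩, ?_⟩
      · intro i
        refine Fin.cases ?_ (fun j => ?_) i
        · simp only [Fin.cons_zero]
          omega
        · simp only [Fin.cons_succ]
          refine Fin.cases ?_ (fun l => ?_) j
          · simp only [Fin.cons_zero]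
            omega
          · simp only [Fin.cons_succ]
            have h2 : b l ≤ ∑ i, b i := Finset.single_le_sum (fun _ _ => Nat.zero_le _) (mem_univ l)
            omega
      · rw [Fin.sum_univ_succ, Fin.sum_univ_succ]
        simp only [Fin.cons_zero, Fin.cons_succ]
        omega
      · simp only [Fin.cons_zero]
        exact hv1
    · rintro ⟨v, b⟩ _ ⟨v', b'⟩ _ hh
      simp only at hh
      have h2 := congrFun hh 0
      simp only [Fin.cons_zero] at h2
      have h3 : ∀ i : Fin k, b i = b' i := by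
        intro i
        have := congrFun hh i.succ.succ
        simpa using this
      exact Prod.ext h2 (funext h3)
  have h2 : (R' ×ˢ Fintype.piFinset (fun _ : Fin k => range (q + 1))).card =
      R'.card * (q + 1) ^ k := by
    rw [card_product, Fintype.card_piFinset]
    simp
  rw [h2] at h1
  have hr0 : (0 : ℝ) ≤ r := Nat.cast_nonneg _
  have e1 : (r : ℝ) / (2 * ((k : ℝ) + 1)) ≤ (q : ℝ) + 1 := by
    rw [div_le_iff₀ (by positivity)]
    have : ((r + 1 : ℕ) : ℝ) ≤ ((2 * (k + 1) * (q + 1) : ℕ) : ℝ) := by exact_mod_cast hq2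
    push_cast at this
    linarith
  have e2 : (r : ℝ) / (2 * ((k : ℝ) + 1)) ≤ R'.card := by
    have h3 : (r : ℝ) ≤ (R'.card : ℝ) + k * q := by exact_mod_cast hcR
    have h4 : 2 * ((k : ℝ) * q) ≤ r := by exact_mod_cast hq3
    rw [div_le_iff₀ (by positivity)]
    have hk : (0 : ℝ) ≤ k := Nat.cast_nonneg _
    have h5 : (0 : ℝ) ≤ R'.card := Nat.cast_nonneg _
    nlinarith
  have e3 : δ / (2 * ((k : ℝ) + 1)) * ((n : ℝ) + 1) ≤ (r : ℝ) / (2 * ((k : ℝ) + 1)) := by
    rw [div_mul_eq_mul_div]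
    exact div_le_div_of_nonneg_right h (by positivity)
  calc (δ / (2 * ((k : ℝ) + 1))) ^ (k + 1) * ((n : ℝ) + 1) ^ (k + 1)
      = (δ / (2 * ((k : ℝ) + 1)) * ((n : ℝ) + 1)) ^ (k + 1) := by rw [mul_pow]
    _ ≤ ((r : ℝ) / (2 * ((k : ℝ) + 1))) ^ (k + 1) := pow_le_pow_left₀ (by positivity) e3 _
    _ = ((r : ℝ) / (2 * ((k : ℝ) + 1))) * ((r : ℝ) / (2 * ((k : ℝ) + 1))) ^ k := by
        rw [pow_succ]; ring
    _ ≤ (R'.card : ℝ) * ((q : ℝ) + 1) ^ k := by
        refine mul_le_mul e2 (pow_le_pow_left₀ (by positivity) e1 k) (by positivity)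
          (by positivity)
    _ = ((R'.card * (q + 1) ^ k : ℕ) : ℝ) := by push_cast; ring
    _ ≤ _ := by exact_mod_cast h1

/-- the sum of the norms of the r-functions -/
theorem cnt_T (k : ℕ) {c₁ δ : ℝ} (hδ : 0 ≤ δ) {t : (Fin (n + 1) → Bool) → ℕ}
    {br : ℕ → (Fin (n + 1) → Bool) → Prop} (hT : TS n c₁ t br)
    (hR : ∀ b, ∃ R : Finset ℕ, δ * ((n : ℝ) + 1) ≤ R.card ∧ ∀ v ∈ R, br v b)
    (o : ℕ → Fin (k + 1) → ℕ) :
    1 / 2 * (δ / (2 * ((k : ℝ) + 1))) ^ (k + 1) * ((n : ℝ) + 1) ^ (k + 1) ≤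
      ∑ p ∈ cells (fun _ : Fin (k + 2) => n), E (fun x => |fT t br o p x|) := by
  classical
  set S := (cells (fun _ : Fin (k + 2) => n)).filter (fun p => ∑ i, p i = n) with hS
  have h1 : ∑ p ∈ S, E (fun x => |fT t br o p x|) ≤
      ∑ p ∈ cells (fun _ : Fin (k + 2) => n), E (fun x => |fT t br o p x|) :=
    sum_le_sum_of_subset_of_nonneg (filter_subset _ _)
      (fun p _ _ => E_nonneg fun x => abs_nonneg _)
  refine le_trans ?_ h1
  have h2 : ∑ p ∈ S, (1 / 2 * E (fun x : Om (k + 2) n =>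
      if br (p 0) (x 0) then (1 : ℝ) else 0)) ≤ ∑ p ∈ S, E (fun x => |fT t br o p x|) :=
    sum_le_sum fun p hp => half_empty hT o p (mem_filter.1 hp).2
  refine le_trans ?_ h2
  rw [← mul_sum, ← E_sum, mul_assoc]
  refine mul_le_mul_of_nonneg_left ?_ (by norm_num)
  have h3 : E (fun _ : Om (k + 2) n =>
      (δ / (2 * ((k : ℝ) + 1))) ^ (k + 1) * ((n : ℝ) + 1) ^ (k + 1)) =
      (δ / (2 * ((k : ℝ) + 1))) ^ (k + 1) * ((n : ℝ) + 1) ^ (k + 1) := E_const _
  rw [← h3]
  refine E_mono fun x => ?_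
  obtain ⟨R, hR1, hR2⟩ := hR (x 0)
  refine (count_R k n R (fun v hv => hT.lt v _ (hR2 v hv)) δ hδ hR1).trans ?_
  rw [← hS, card_filter]
  push_cast
  refine sum_le_sum fun p _ => ?_
  by_cases h4 : p 0 ∈ R
  · rw [if_pos h4, if_pos (hR2 _ h4)]
  · rw [if_neg h4]
    split_ifs <;> norm_num

/-- **The lower bound on the grid.** -/
theorem grid_ct (d : ℕ) (hd : 2 ≤ d) (c₁ δ : ℝ) (hc₁ : 0 < c₁) (hδ : 0 < δ) :
    ∃ c : ℝ, 0 < c ∧ ∃ A : ℕ, ∀ (n : ℕ) (t : (Fin (n + 1) → Bool) → ℕ)
      (br : ℕ → (Fin (n + 1) → Bool) → Prop), TS n c₁ t br →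
      (∀ b, ∃ R : Finset ℕ, δ * ((n : ℝ) + 1) ≤ R.card ∧ ∀ v ∈ R, br v b) →
      ∀ (w : ℕ → ℝ) (o : ℕ → Fin d → ℕ) (u : Fin d → ℝ) (h : Fin (d + 1) → Om (d + 1) n → ℝ),
      (∀ j v x, h j (flp j v x) = h j x) → ∀ M : ℝ, (∀ x, |FT t w o u h x| ≤ M) →
      c * ((n : ℝ) + 1) ^ (((d : ℝ) + 1) / 2) ≤ ((mm n : ℝ) + 1) ^ A * M := by
  obtain ⟨k, rfl⟩ : ∃ k, d = k + 1 := ⟨d - 1, by omega⟩
  obtain ⟨c, hc, A, H⟩ := abs_ct (k + 1) hd (c₁ * (1 / 2 : ℝ) ^ (2 * (k + 1) + 1))
    (1 / 2 * (δ / (2 * ((k : ℝ) + 1))) ^ (k + 1)) (by positivity) (by positivity)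
  refine ⟨c, hc, A, ?_⟩
  intro n t br hT hR w o u h hh M hM
  refine H n (Om (k + 1 + 1) n) (fun i v x => flp i v x) (fun i v x => rad i v x)
    (fun r x => fT t br o r x) (hyp_T hT o) (FT t w o u h) M hM ?_ ?_ ?_
  · intro p g hp hn hodd hs
    refine cor_up hc₁.le hT w o u h hh p hp hn g hodd fun x hx => ?_
    obtain ⟨r, hr, hne⟩ := hs x hx
    have h1 : emT t o r x := by
      by_contra hcon
      apply hne
      unfold fT
      rw [if_neg (fun h' => hcon h'.2.2)]
    exact emT_mono t o r p hr hp x h1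
  · intro p hn
    exact cor_mid hc₁.le hT w o u h hh p hn
  · exact cnt_T k hδ.le hT hR o

end Pool.Agent.H553.CT
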