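import Mathlib

set_option autoImplicit false

/-!
# Large sets of integers contain regular trees
-/

namespace Pool.Agent.H553.CT

open Finset

/-- the part of `S` in the child number `j` of the interval of length `2 ^ (μ (N + 1))` with the left
end point `s` -/
def ch (μ N s j : ℕ) (S : Finset ℕ) : Finset ℕ := S.filter (fun n => (n - s) / 2 ^ (μ * N) = j)

/-- `S` contains a tree of height `N` (for the nodes of width `2 ^ (μ i)`), all branches of which have
at least `ℓ` branching nodes -/
def Br (μ : ℕ) : ℕ → ℕ → ℕ → Finset ℕ → Prop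
  | 0, ℓ, _, S => ℓ = 0 ∧ S.Nonempty
  | N + 1, ℓ, s, S => (∃ j, j < 2 ^ μ ∧ Br μ N ℓ (s + j * 2 ^ (μ * N)) (ch μ N s j S)) ∨
      ∃ ℓ', ℓ = ℓ' + 1 ∧ ∃ j j', j + 2 ≤ j' ∧ j' < 2 ^ μ ∧
        Br μ N ℓ' (s + j * 2 ^ (μ * N)) (ch μ N s j S) ∧
        Br μ N ℓ' (s + j' * 2 ^ (μ * N)) (ch μ N s j' S)

theorem ch_sub (μ N s j : ℕ) (S : Finset ℕ) (hS : ∀ n ∈ S, s ≤ n) :
    ∀ n ∈ ch μ N s j S, n ∈ S ∧ s + j * 2 ^ (μ * N) ≤ n ∧
      n < s + j * 2 ^ (μ * N) + 2 ^ (μ * N) := by
  intro n hn
  unfold ch at hn
  obtain ⟨h1, h2⟩ := mem_filter.1 hn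
  have h3 := hS n h1
  have hpos : 0 < 2 ^ (μ * N) := by positivity
  have h4 := Nat.div_add_mod (n - s) (2 ^ (μ * N))
  have h5 := Nat.mod_lt (n - s) hpos
  rw [h2] at h4
  rw [mul_comm j]
  refine ⟨h1, by omega, by omega⟩

theorem br_zero (μ : ℕ) : ∀ (N s : ℕ) (S : Finset ℕ), (∀ n ∈ S, s ≤ n ∧ n < s + 2 ^ (μ * N)) →
    S.Nonempty → Br μ N 0 s S := by
  intro N
  induction N with
  | zero =>
    intro s S _ hne
    exact ⟨rfl, hne⟩
  | succ N ih =>
    intro s S hS hne
    obtain ⟨a, ha⟩ := hne
    left
    have hpos : 0 < 2 ^ (μ * N) := by positivity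
    refine ⟨(a - s) / 2 ^ (μ * N), ?_, ?_⟩
    · rw [Nat.div_lt_iff_lt_mul hpos, ← pow_add]
      have := hS a ha
      have h1 : μ + μ * N = μ * (N + 1) := by ring
      rw [h1]
      omega
    · refine ih _ _ ?_ ?_
      · intro n hn
        exact (ch_sub μ N s _ S (fun n hn => (hS n hn).1) n hn).2
      · exact ⟨a, mem_filter.2 ⟨ha, rfl⟩⟩

/-- **Large sets contain trees with many branching nodes.** -/
theorem card_le_of_not_br (μ : ℕ) : ∀ (N ℓ s : ℕ) (S : Finset ℕ),
    (∀ n ∈ S, s ≤ n ∧ n < s + 2 ^ (μ * N)) → ¬ Br μ N (ℓ + 1) s S →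
    S.card ≤ 4 ^ N * 2 ^ (μ * ℓ) := by
  classical
  intro N
  induction N with
  | zero =>
    intro ℓ s S hS _
    have h1 : S ⊆ {s} := by
      intro n hn
      have := hS n hn
      simp only [mul_zero, pow_zero] at this
      rw [mem_singleton]
      omega
    have h2 := card_le_card h1
    rw [card_singleton] at h2
    have h3 : 1 ≤ 2 ^ (μ * ℓ) := Nat.one_le_two_pow
    simpa using h2.trans h3
  | succ N ih =>
    intro ℓ s S hS hbr
    have hpos : 0 < 2 ^ (μ * N) := by positivity
    have hS' : ∀ n ∈ S, s ≤ n := fun n hn => (hS n hn).1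
    have hchS : ∀ j, ∀ n ∈ ch μ N s j S, s + j * 2 ^ (μ * N) ≤ n ∧
        n < s + j * 2 ^ (μ * N) + 2 ^ (μ * N) := fun j n hn => (ch_sub μ N s j S hS' n hn).2
    have hmaps : ∀ n ∈ S, (n - s) / 2 ^ (μ * N) ∈ range (2 ^ μ) := by
      intro n hn
      rw [mem_range, Nat.div_lt_iff_lt_mul hpos, ← pow_add]
      have := hS n hn
      have h1 : μ + μ * N = μ * (N + 1) := by ring
      rw [h1]
      omega
    have hcard : S.card = ∑ j ∈ range (2 ^ μ), (ch μ N s j S).card := by
      rw [card_eq_sum_card_fiberwise (f := fun n => (n - s) / 2 ^ (μ * N))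
        (t := range (2 ^ μ)) hmaps]
      rfl
    have hn1 : ∀ j, j < 2 ^ μ → ¬ Br μ N (ℓ + 1) (s + j * 2 ^ (μ * N)) (ch μ N s j S) := by
      intro j hj h
      exact hbr (Or.inl ⟨j, hj, h⟩)
    set J : Finset ℕ := (range (2 ^ μ)).filter
      (fun j => Br μ N ℓ (s + j * 2 ^ (μ * N)) (ch μ N s j S)) with hJ
    have hJ2 : J.card ≤ 2 := by
      by_contra hcon
      push Not at hcon
      have hne : J.Nonempty := by
        rw [← card_pos]
        omega
      have h1 := J.min'_mem hne
      have h2 := J.max'_mem hne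
      have h3 : J.min' hne + 2 ≤ J.max' hne := by
        by_contra hc
        push Not at hc
        have h4 : J ⊆ Icc (J.min' hne) (J.max' hne) := by
          intro j hj
          rw [mem_Icc]
          exact ⟨J.min'_le j hj, J.le_max' j hj⟩
        have h5 := card_le_card h4
        rw [Nat.card_Icc] at h5
        omega
      have h1' := mem_filter.1 h1
      have h2' := mem_filter.1 h2
      exact hbr (Or.inr ⟨ℓ, rfl, J.min' hne, J.max' hne, h3, mem_range.1 h2'.1, h1'.2, h2'.2⟩)
    have hsplit := sum_filter_add_sum_filter_not (range (2 ^ μ))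
      (fun j => Br μ N ℓ (s + j * 2 ^ (μ * N)) (ch μ N s j S)) (fun j => (ch μ N s j S).card)
    rw [hcard, ← hsplit]
    have e1 : ∑ j ∈ J, (ch μ N s j S).card ≤ 2 * (4 ^ N * 2 ^ (μ * ℓ)) := by
      calc ∑ j ∈ J, (ch μ N s j S).card ≤ ∑ _j ∈ J, 4 ^ N * 2 ^ (μ * ℓ) := by
            refine sum_le_sum fun j hj => ?_
            have := mem_filter.1 hj
            exact ih ℓ _ _ (hchS j) (hn1 j (mem_range.1 this.1))
        _ = J.card * (4 ^ N * 2 ^ (μ * ℓ)) := by rw [sum_const, smul_eq_mul]
        _ ≤ _ := Nat.mul_le_mul_right _ hJ2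
    have e2 : ∑ j ∈ (range (2 ^ μ)).filter
        (fun j => ¬ Br μ N ℓ (s + j * 2 ^ (μ * N)) (ch μ N s j S)), (ch μ N s j S).card ≤
        4 ^ N * 2 ^ (μ * ℓ) := by
      rcases Nat.eq_zero_or_pos ℓ with h0 | h0
      · have h1 : ∑ j ∈ (range (2 ^ μ)).filter
            (fun j => ¬ Br μ N ℓ (s + j * 2 ^ (μ * N)) (ch μ N s j S)),
            (ch μ N s j S).card = 0 := by
          refine sum_eq_zero fun j hj => ?_
          have h2 := (mem_filter.1 hj).2
          rw [card_eq_zero]
          by_contra h3
          apply h2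
          rw [h0]
          exact br_zero μ N _ _ (hchS j) (nonempty_iff_ne_empty.2 h3)
        rw [h1]
        exact Nat.zero_le _
      · obtain ⟨ℓ', rfl⟩ : ∃ ℓ', ℓ = ℓ' + 1 := ⟨ℓ - 1, by omega⟩
        calc ∑ j ∈ (range (2 ^ μ)).filter
              (fun j => ¬ Br μ N (ℓ' + 1) (s + j * 2 ^ (μ * N)) (ch μ N s j S)),
              (ch μ N s j S).card
            ≤ ∑ _j ∈ (range (2 ^ μ)).filter
              (fun j => ¬ Br μ N (ℓ' + 1) (s + j * 2 ^ (μ * N)) (ch μ N s j S)),
              4 ^ N * 2 ^ (μ * ℓ') := by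
              refine sum_le_sum fun j hj => ?_
              exact ih ℓ' _ _ (hchS j) (mem_filter.1 hj).2
          _ ≤ 2 ^ μ * (4 ^ N * 2 ^ (μ * ℓ')) := by
              rw [sum_const, smul_eq_mul]
              apply Nat.mul_le_mul_right
              refine (card_filter_le _ _).trans ?_
              rw [card_range]
          _ = 4 ^ N * 2 ^ (μ * (ℓ' + 1)) := by
              rw [mul_add, mul_one, pow_add]
              ring
    calc _ ≤ 2 * (4 ^ N * 2 ^ (μ * ℓ)) + 4 ^ N * 2 ^ (μ * ℓ) := Nat.add_le_add e1 e2
      _ ≤ 4 ^ (N + 1) * 2 ^ (μ * ℓ) := by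
        rw [pow_succ]
        nlinarith [Nat.zero_le (4 ^ N * 2 ^ (μ * ℓ))]

/-- a tree of times: `t b` is the leaf with the digits `b`, `br v b` says that the node given by the
first `v` digits of `b` is a branching node -/
structure TT (μ N ℓ : ℕ) (S : Finset ℕ) (t : (ℕ → Bool) → ℕ) (br : ℕ → (ℕ → Bool) → Prop) :
    Prop where
  mem : ∀ b, t b ∈ S
  lt : ∀ v b, br v b → v + μ ≤ μ * N
  pre : ∀ v b b', (∀ u < v, b u = b' u) → br v b → br v b'
  wid : ∀ v b b', br v b → (∀ u < v, b u = b' u) → t b' ≤ t b + 2 ^ (μ * N - v)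
  gap : ∀ v b b', br v b → (∀ u < v, b u = b' u) → b v = false → b' v = true →
    t b + 2 ^ (μ * N - v - μ) ≤ t b'
  fix : ∀ v b, ¬ br v b → t (Function.update b v (!(b v))) = t b
  cnt : ∀ b, ∃ R : Finset ℕ, R.card = ℓ ∧ ∀ v ∈ R, br v b

/-- drop the first `μ` digits -/
def sh (μ : ℕ) (b : ℕ → Bool) : ℕ → Bool := fun u => b (u + μ)

theorem sh_update_lt (μ v : ℕ) (hv : v < μ) (b : ℕ → Bool) (a : Bool) :
    sh μ (Function.update b v a) = sh μ b := by
  funext u
  unfold sh
  rw [Function.update_of_ne (by omega)]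

theorem sh_update_ge (μ v : ℕ) (hv : μ ≤ v) (b : ℕ → Bool) (a : Bool) :
    sh μ (Function.update b v a) = Function.update (sh μ b) (v - μ) a := by
  funext u
  unfold sh
  by_cases h : u = v - μ
  · subst h
    have : v - μ + μ = v := by omega
    rw [this, Function.update_self, Function.update_self]
  · rw [Function.update_of_ne (by omega), Function.update_of_ne h]

theorem exists_tree (μ : ℕ) (hμ : 1 ≤ μ) : ∀ (N ℓ s : ℕ) (S : Finset ℕ),
    (∀ n ∈ S, s ≤ n ∧ n < s + 2 ^ (μ * N)) → Br μ N ℓ s S →
    ∃ (t : (ℕ → Bool) → ℕ) (br : ℕ → (ℕ → Bool) → Prop), TT μ N ℓ S t br := by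
  classical
  intro N
  induction N with
  | zero =>
    intro ℓ s S _ hbr
    obtain ⟨rfl, a, ha⟩ := hbr
    refine ⟨fun _ => a, fun _ _ => False, ?_⟩
    exact
      { mem := fun _ => ha
        lt := fun _ _ h => h.elim
        pre := fun _ _ _ _ h => h
        wid := fun _ _ _ h _ => h.elim
        gap := fun _ _ _ h _ _ _ => h.elim
        fix := fun _ _ _ => rfl
        cnt := fun _ => ⟨∅, rfl, fun v hv => absurd hv (notMem_empty v)⟩ }
  | succ N ih =>
    intro ℓ s S hS hbr
    have hS' : ∀ n ∈ S, s ≤ n := fun n hn => (hS n hn).1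
    have hchS : ∀ j, ∀ n ∈ ch μ N s j S, s + j * 2 ^ (μ * N) ≤ n ∧
        n < s + j * 2 ^ (μ * N) + 2 ^ (μ * N) := fun j n hn => (ch_sub μ N s j S hS' n hn).2
    have hchS2 : ∀ j, ∀ n ∈ ch μ N s j S, n ∈ S := fun j n hn => (ch_sub μ N s j S hS' n hn).1
    have hsh : ∀ (v : ℕ) (b b' : ℕ → Bool), μ ≤ v → (∀ u < v, b u = b' u) →
        ∀ u < v - μ, sh μ b u = sh μ b' u := fun v b b' hv h u hu => h (u + μ) (by omega)
    have hexp : ∀ v, μ ≤ v → μ * N - (v - μ) = μ * (N + 1) - v := by
      intro v hv
      rw [mul_add, mul_one]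
      omega
    rcases hbr with ⟨j, hj, h⟩ | ⟨ℓ', rfl, j, j', hjj, hj', h, h'⟩
    · obtain ⟨t', br', H⟩ := ih ℓ _ _ (hchS j) h
      refine ⟨fun b => t' (sh μ b), fun v b => μ ≤ v ∧ br' (v - μ) (sh μ b), ?_⟩
      exact
        { mem := fun b => hchS2 j _ (H.mem _)
          lt := fun v b hb => by
            have := H.lt _ _ hb.2
            rw [mul_add, mul_one]
            omega
          pre := fun v b b' hbb hb => ⟨hb.1, H.pre _ _ _ (hsh v b b' hb.1 hbb) hb.2⟩
          wid := fun v b b' hb hbb => by
            have := H.wid _ _ _ hb.2 (hsh v b b' hb.1 hbb)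
            rwa [hexp v hb.1] at this
          gap := fun v b b' hb hbb h0 h1 => by
            have e : v - μ + μ = v := by have := hb.1; omega
            have := H.gap _ _ _ hb.2 (hsh v b b' hb.1 hbb)
              (by unfold sh; rw [e]; exact h0) (by unfold sh; rw [e]; exact h1)
            rwa [hexp v hb.1] at this
          fix := fun v b hb => by
            by_cases hv : v < μ
            · show t' (sh μ _) = _
              rw [sh_update_lt μ v hv]
            · push Not at hv
              show t' (sh μ _) = _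
              rw [sh_update_ge μ v hv]
              have e : b v = sh μ b (v - μ) := by
                unfold sh
                congr 1
                omega
              rw [e]
              exact H.fix _ _ (fun hc => hb ⟨hv, hc⟩)
          cnt := fun b => by
            obtain ⟨R, hR, hRb⟩ := H.cnt (sh μ b)
            refine ⟨R.map (addRightEmbedding μ), by rw [card_map, hR], fun v hv => ?_⟩
            obtain ⟨u, hu, rfl⟩ := mem_map.1 hv
            refine ⟨?_, ?_⟩
            · simp
            · simpa using hRb u hu }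
    · obtain ⟨t₀, br₀, H₀⟩ := ih ℓ' _ _ (hchS j) h
      obtain ⟨t₁, br₁, H₁⟩ := ih ℓ' _ _ (hchS j') h'
      set t' : Bool → (ℕ → Bool) → ℕ := fun a => if a then t₁ else t₀ with ht'
      set br' : Bool → ℕ → (ℕ → Bool) → Prop := fun a => if a then br₁ else br₀ with hbr'
      set S' : Bool → Finset ℕ := fun a => if a then ch μ N s j' S else ch μ N s j S with hS'd
      have H : ∀ a, TT μ N ℓ' (S' a) (t' a) (br' a) := by
        intro a
        cases a
        · exact H₀
        · exact H₁
      have hSS : ∀ a, ∀ n ∈ S' a, n ∈ S := by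
        intro a
        cases a
        · exact hchS2 j
        · exact hchS2 j'
      refine ⟨fun b => t' (b 0) (sh μ b),
        fun v b => v = 0 ∨ (μ ≤ v ∧ br' (b 0) (v - μ) (sh μ b)), ?_⟩
      have h00 : ∀ (v : ℕ) (b b' : ℕ → Bool), μ ≤ v → (∀ u < v, b u = b' u) → b' 0 = b 0 :=
        fun v b b' hv hbb => (hbb 0 (by omega)).symm
      exact
        { mem := fun b => hSS _ _ ((H _).mem _)
          lt := fun v b hb => by
            rw [mul_add, mul_one]
            rcases hb with hb | hb
            · omega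
            · have := (H _).lt _ _ hb.2
              omega
          pre := fun v b b' hbb hb => by
            rcases hb with hb | hb
            · exact Or.inl hb
            · right
              refine ⟨hb.1, ?_⟩
              rw [h00 v b b' hb.1 hbb]
              exact (H _).pre _ _ _ (hsh v b b' hb.1 hbb) hb.2
          wid := fun v b b' hb hbb => by
            rcases hb with hb | hb
            · subst hb
              have h1 := hS _ (hSS _ _ ((H (b 0)).mem (sh μ b)))
              have h2 := hS _ (hSS _ _ ((H (b' 0)).mem (sh μ b')))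
              rw [Nat.sub_zero]
              show t' (b' 0) (sh μ b') ≤ t' (b 0) (sh μ b) + _
              omega
            · have := (H _).wid _ _ _ hb.2 (hsh v b b' hb.1 hbb)
              rw [hexp v hb.1] at this
              show t' (b' 0) (sh μ b') ≤ t' (b 0) (sh μ b) + _
              rw [h00 v b b' hb.1 hbb]
              exact this
          gap := fun v b b' hb hbb h0 h1 => by
            rcases hb with hb | hb
            · subst hb
              have h2 := (hchS j _ (by
                have := (H₀.mem (sh μ b))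
                exact this)).2
              have h3 := (hchS j' _ (by
                have := (H₁.mem (sh μ b'))
                exact this)).1
              show t' (b 0) (sh μ b) + _ ≤ t' (b' 0) (sh μ b')
              rw [h0, h1]
              show t₀ (sh μ b) + _ ≤ t₁ (sh μ b')
              have e : μ * (N + 1) - 0 - μ = μ * N := by
                rw [mul_add, mul_one]
                omega
              rw [e]
              have h4 : (j + 2) * 2 ^ (μ * N) ≤ j' * 2 ^ (μ * N) := Nat.mul_le_mul_right _ hjj
              have h5 : (j + 2) * 2 ^ (μ * N) = j * 2 ^ (μ * N) + 2 * 2 ^ (μ * N) := by ring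
              omega
            · have e : v - μ + μ = v := by have := hb.1; omega
              have := (H _).gap _ _ _ hb.2 (hsh v b b' hb.1 hbb)
                (by unfold sh; rw [e]; exact h0) (by unfold sh; rw [e]; exact h1)
              rw [hexp v hb.1] at this
              show t' (b 0) (sh μ b) + _ ≤ t' (b' 0) (sh μ b')
              rw [h00 v b b' hb.1 hbb]
              exact this
          fix := fun v b hb => by
            push Not at hb
            have hv0 := hb.1
            show t' (Function.update b v (!(b v)) 0) (sh μ _) = t' (b 0) (sh μ b)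
            rw [Function.update_of_ne (Ne.symm hv0)]
            by_cases hv : v < μ
            · rw [sh_update_lt μ v hv]
            · push Not at hv
              rw [sh_update_ge μ v hv]
              have e : b v = sh μ b (v - μ) := by
                unfold sh
                congr 1
                omega
              rw [e]
              exact (H _).fix _ _ (hb.2 hv)
          cnt := fun b => by
            obtain ⟨R, hR, hRb⟩ := (H (b 0)).cnt (sh μ b)
            refine ⟨insert 0 (R.map (addRightEmbedding μ)), ?_, fun v hv => ?_⟩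
            · rw [card_insert_of_notMem, card_map, hR]
              intro h0
              obtain ⟨u, _, hu2⟩ := mem_map.1 h0
              simp at hu2
              omega
            · rcases mem_insert.1 hv with hv | hv
              · exact Or.inl hv
              · obtain ⟨u, hu, rfl⟩ := mem_map.1 hv
                right
                refine ⟨?_, ?_⟩
                · simp
                · simpa using hRb u hu }

end Pool.Agent.H553.CT
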