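import Pool.Agent.H553.CT.Grid
import Pool.Agent.H553.CT.Tree

set_option autoImplicit false
set_option linter.unusedSectionVars false

/-!
# The discrepancy of sequences at almost all times
-/

namespace Pool.Agent.H553.CT

open Finset
open Pool.Agent.H397R2.SD (val)
open Pool.Agent.W776.GD (Om flp flp_other)
open Pool.Agent.NH43.AD (mm)

/-- extend a string of digits by zeros -/
def ext (n : ℕ) (b : Fin (n + 1) → Bool) (u : ℕ) : Bool := if h : u < n + 1 then b ⟨u, h⟩ else false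

theorem ext_ag (n v : ℕ) (b b' : Fin (n + 1) → Bool) (h : ag v b b') :
    ∀ u < v, ext n b u = ext n b' u := by
  intro u hu
  unfold ext
  split_ifs with h1
  · exact h ⟨u, h1⟩ hu
  · rfl

theorem ext_upd (n v : ℕ) (h : v < n + 1) (b : Fin (n + 1) → Bool) (a : Bool) :
    ext n (Function.update b ⟨v, h⟩ a) = Function.update (ext n b) v a := by
  funext u
  by_cases hu : u = v
  · subst hu
    rw [Function.update_self]
    unfold ext
    rw [dif_pos h, Function.update_self]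
  · rw [Function.update_of_ne hu]
    unfold ext
    split_ifs with h1
    · rw [Function.update_of_ne]
      intro e
      exact hu (congrArg Fin.val e)
    · rfl

theorem ext_self (n v : ℕ) (h : v < n + 1) (b : Fin (n + 1) → Bool) : ext n b v = b ⟨v, h⟩ := by
  unfold ext
  rw [dif_pos h]

theorem ts_of_tt (μ N ℓ : ℕ) (hμ : 1 ≤ μ) (S : Finset ℕ) (t : (ℕ → Bool) → ℕ)
    (br : ℕ → (ℕ → Bool) → Prop) (H : TT μ N ℓ S t br) :
    TS (μ * N + 1) ((1 / 2 : ℝ) ^ (μ + 1)) (fun b => t (ext (μ * N + 1) b))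
      (fun v b => br v (ext (μ * N + 1) b)) := by
  refine ⟨?_, ?_, ?_, ?_, ?_⟩
  · intro v b hb
    have := H.lt _ _ hb
    omega
  · intro v b b' hbb hb
    exact H.pre _ _ _ (ext_ag _ v b b' hbb) hb
  · intro v b b' hb hbb
    have := H.wid _ _ _ hb (ext_ag _ v b b' hbb)
    have e : μ * N + 1 - 1 - v = μ * N - v := by omega
    rw [e]
    exact this
  · intro v b b' h hb hbb h0 h1
    have hv := H.lt _ _ hb
    have := H.gap _ _ _ hb (ext_ag _ v b b' hbb)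
      (by rw [ext_self _ v h]; exact h0) (by rw [ext_self _ v h]; exact h1)
    have e1 : (1 / 2 : ℝ) ^ (μ + 1) * 2 ^ (μ * N + 1 - v) = 2 ^ (μ * N - v - μ) := by
      have e2 : μ * N + 1 - v = (μ + 1) + (μ * N - v - μ) := by omega
      rw [e2, pow_add (2 : ℝ) (μ + 1) _, ← mul_assoc, ← mul_pow]
      norm_num
    rw [e1]
    exact_mod_cast this
  · intro v b h hb
    have := H.fix v (ext (μ * N + 1) b) hb
    show t (ext _ _) = _
    rw [ext_upd, ← ext_self _ v h b]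
    exact this

/-- the points of the grid -/
noncomputable def gy {d n : ℕ} (x : Om (d + 1) n) (c : Fin d) : ℝ :=
  ((val n (x c.succ) : ℝ) + 1 / 2) / 2 ^ (n + 1)

theorem val_lt (n : ℕ) (b : Fin (n + 1) → Bool) : val n b < 2 ^ (n + 1) := by
  have h1 : val n b ≤ ∑ i : Fin (n + 1), 2 ^ (n - (i : ℕ)) := by
    unfold Pool.Agent.H397R2.SD.val
    refine sum_le_sum fun i _ => ?_
    split_ifs
    · exact le_rfl
    · exact Nat.zero_le _
  have h2 : ∑ i : Fin (n + 1), 2 ^ (n - (i : ℕ)) = ∑ i ∈ range (n + 1), 2 ^ (n - i) :=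
    Fin.sum_univ_eq_sum_range (fun i => 2 ^ (n - i)) (n + 1)
  have h3 : ∑ i ∈ range (n + 1), 2 ^ (n - i) = ∑ i ∈ range (n + 1), 2 ^ i := by
    have := Finset.sum_range_reflect (fun i => 2 ^ i) (n + 1)
    rw [← this]
    refine sum_congr rfl fun i hi => ?_
    congr 1
  have h4 : ∑ i ∈ range (n + 1), 2 ^ i < 2 ^ (n + 1) := by
    have := Nat.geomSum_lt (le_refl 2) (s := range (n + 1)) (n := n + 1)
      (fun k hk => mem_range.1 hk)
    exact this
  omega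

theorem gy_mem {d n : ℕ} (x : Om (d + 1) n) (c : Fin d) : 0 < gy x c ∧ gy x c < 1 := by
  unfold gy
  have h1 : (val n (x c.succ) : ℝ) + 1 ≤ 2 ^ (n + 1) := by
    have := val_lt n (x c.succ)
    exact_mod_cast this
  have h2 : (0 : ℝ) ≤ val n (x c.succ) := Nat.cast_nonneg _
  constructor
  · positivity
  · rw [div_lt_one (by positivity)]
    linarith

theorem gy_flp_zero {d n : ℕ} (v : ℕ) (x : Om (d + 1) n) : gy (flp 0 v x) = gy x := by
  funext c
  unfold gy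
  rw [flp_other 0 c.succ (Fin.succ_ne_zero c)]

theorem gy_flp_succ {d n : ℕ} (c : Fin d) (v : ℕ) (x : Om (d + 1) n) :
    gy (flp c.succ v x) = Function.update (gy x) c (gy (flp c.succ v x) c) := by
  funext e
  by_cases he : e = c
  · subst he
    rw [Function.update_self]
  · rw [Function.update_of_ne he]
    unfold gy
    rw [flp_other c.succ e.succ (fun h => he (Fin.succ_injective _ h))]

/-- the discrepancy function with the weights `w` minus functions of fewer variables -/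
noncomputable def DW {d : ℕ} (w : ℕ → ℝ) (z : ℕ → Fin d → ℝ) (f : (Fin d → ℝ) → ℝ)
    (h : Fin d → (Fin d → ℝ) → ℕ → ℝ) (n : ℕ) (x : Fin d → ℝ) : ℝ :=
  ∑ k ∈ range n, w k * (if ∀ i, z k i ≤ x i then (1 : ℝ) else 0) - n * ∏ i, x i -
    (f x + ∑ i, h i x n)

/-- **The main theorem, dyadic form.** -/
theorem main_dy (d : ℕ) (hd : 2 ≤ d) (ε : ℝ) (hε : 0 < ε) : ∃ μ : ℕ, 1 ≤ μ ∧ ∃ c : ℝ, 0 < c ∧
    ∃ A : ℕ, ∀ (w : ℕ → ℝ) (z : ℕ → Fin d → ℝ) (f : (Fin d → ℝ) → ℝ)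
    (h : Fin d → (Fin d → ℝ) → ℕ → ℝ),
    (∀ (i : Fin d) (x : Fin d → ℝ) (a : ℝ) (n : ℕ), h i (Function.update x i a) n = h i x n) →
    ∀ (s N : ℕ), 2 ≤ N → ∀ S : Finset ℕ, (∀ n ∈ S, s ≤ n ∧ n < s + 2 ^ (μ * N)) →
    (2 : ℝ) ^ ((μ : ℝ) * ε * ((N : ℝ) - 1)) < S.card →
    ∀ M : ℝ, (∀ n ∈ S, ∀ x : Fin d → ℝ, (∀ i, 0 < x i ∧ x i < 1) → |DW w z f h n x| ≤ M) →
      c * ((μ : ℝ) * N + 2) ^ (((d : ℝ) + 1) / 2) ≤ ((mm (μ * N + 1) : ℝ) + 1) ^ A * M := by
  obtain ⟨μ, hμ1, hμε⟩ : ∃ μ : ℕ, 1 ≤ μ ∧ 8 ≤ μ * ε := by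
    refine ⟨⌈8 / ε⌉₊ + 1, by omega, ?_⟩
    have h1 : 8 / ε ≤ (⌈8 / ε⌉₊ : ℝ) := Nat.le_ceil _
    rw [div_le_iff₀ hε] at h1
    push_cast
    nlinarith
  obtain ⟨c, hc, A, H⟩ := grid_ct d hd ((1 / 2 : ℝ) ^ (μ + 1)) (ε / (4 * ((μ : ℝ) + 2)))
    (by positivity) (by positivity)
  refine ⟨μ, hμ1, c, hc, A, ?_⟩
  intro w z f h hh s N hN S hS hcard M hM
  set ℓ : ℕ := ⌊ε * N / 4⌋₊ with hℓ
  have hℓ1 : (ℓ : ℝ) ≤ ε * N / 4 := Nat.floor_le (by positivity)
  have hℓ2 : ε * N / 4 ≤ ℓ + 1 := (Nat.lt_floor_add_one _).le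
  have hN2 : (2 : ℝ) ≤ N := by exact_mod_cast hN
  have hμ0 : (1 : ℝ) ≤ μ := by exact_mod_cast hμ1
  -- the tree
  have hbr : Br μ N (ℓ + 1) s S := by
    by_contra hcon
    have h1 := card_le_of_not_br μ N ℓ s S hS hcon
    have h2 : (S.card : ℝ) ≤ (2 : ℝ) ^ ((2 * N : ℝ) + μ * ℓ) := by
      calc (S.card : ℝ) ≤ ((4 ^ N * 2 ^ (μ * ℓ) : ℕ) : ℝ) := by exact_mod_cast h1
        _ = (2 : ℝ) ^ (2 * N + μ * ℓ) := by
            push_cast
            rw [pow_add, pow_mul (2 : ℝ) 2 N]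
            norm_num
        _ = _ := by
            rw [← Real.rpow_natCast]
            congr 1
            push_cast
            ring
    have h3 : (2 * N : ℝ) + μ * ℓ ≤ (μ : ℝ) * ε * ((N : ℝ) - 1) := by
      have h4 : (μ : ℝ) * ℓ ≤ μ * (ε * N / 4) := mul_le_mul_of_nonneg_left hℓ1 (by linarith)
      have h5 : 8 * (N : ℝ) ≤ μ * ε * N := mul_le_mul_of_nonneg_right hμε (by linarith)
      have h6 : (μ : ℝ) * ε * 2 ≤ μ * ε * N := mul_le_mul_of_nonneg_left hN2 (by positivity)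
      nlinarith
    have h4 : (2 : ℝ) ^ ((2 * N : ℝ) + μ * ℓ) ≤ (2 : ℝ) ^ ((μ : ℝ) * ε * ((N : ℝ) - 1)) :=
      Real.rpow_le_rpow_of_exponent_le (by norm_num) h3
    linarith
  obtain ⟨t, br, HT⟩ := exists_tree μ hμ1 N (ℓ + 1) s S hS hbr
  set n : ℕ := μ * N + 1 with hn
  have hTS := ts_of_tt μ N (ℓ + 1) hμ1 S t br HT
  rw [← hn] at hTS
  have hR : ∀ b : Fin (n + 1) → Bool, ∃ R : Finset ℕ,
      ε / (4 * ((μ : ℝ) + 2)) * ((n : ℝ) + 1) ≤ R.card ∧ ∀ v ∈ R, br v (ext n b) := by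
    intro b
    obtain ⟨R, hR1, hR2⟩ := HT.cnt (ext n b)
    refine ⟨R, ?_, hR2⟩
    rw [hR1]
    push_cast
    refine le_trans ?_ hℓ2
    have e1 : (n : ℝ) + 1 ≤ ((μ : ℝ) + 2) * N := by
      rw [hn]
      push_cast
      nlinarith
    calc ε / (4 * ((μ : ℝ) + 2)) * ((n : ℝ) + 1) ≤
          ε / (4 * ((μ : ℝ) + 2)) * (((μ : ℝ) + 2) * N) :=
          mul_le_mul_of_nonneg_left e1 (by positivity)
      _ = ε * N / 4 := by field_simp
  -- the points
  set o : ℕ → Fin d → ℕ := fun k i => ⌈z k i * 2 ^ (n + 1) - 1 / 2⌉₊ with ho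
  have hoz : ∀ (x : Om (d + 1) n) (k : ℕ),
      (∀ i, o k i ≤ val n (x i.succ)) ↔ (∀ i, z k i ≤ gy x i) := by
    intro x k
    refine forall_congr' fun i => ?_
    rw [ho]
    dsimp only
    rw [Nat.ceil_le]
    unfold gy
    rw [le_div_iff₀ (by positivity)]
    constructor
    · intro h1; linarith
    · intro h1; linarith
  set h' : Fin (d + 1) → Om (d + 1) n → ℝ :=
    Fin.cons (fun x => f (gy x)) (fun i x => h i (gy x) (t (ext n (x 0)))) with hh'
  have hinv : ∀ j v x, h' j (flp j v x) = h' j x := by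
    intro j v x
    refine Fin.cases ?_ (fun i => ?_) j
    · simp only [hh', Fin.cons_zero]
      rw [gy_flp_zero]
    · simp only [hh', Fin.cons_succ]
      rw [flp_other i.succ 0 (Ne.symm (Fin.succ_ne_zero i)), gy_flp_succ i v x, hh]
  have hF : ∀ x : Om (d + 1) n, FT (fun b => t (ext n b)) w o (fun _ => 1 / 2) h' x =
      DW w z f h (t (ext n (x 0))) (gy x) := by
    intro x
    unfold FT DW
    rw [Fin.sum_univ_succ]
    simp only [hh', Fin.cons_zero, Fin.cons_succ, hoz]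
    rfl
  have := H n (fun b => t (ext n b)) (fun v b => br v (ext n b)) hTS hR w o (fun _ => 1 / 2) h'
    hinv M (fun x => by
      rw [hF x]
      exact hM _ (HT.mem _) _ (gy_mem x))
  have e : (μ : ℝ) * N + 2 = (n : ℝ) + 1 := by
    rw [hn]
    push_cast
    ring
  rw [e]
  exact this

end Pool.Agent.H553.CT
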